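import Mathlib

/-!
# Top views of two isotropic circles through each point: a surface violating (a) and (b)

The surface is `M = {(v (3 + u²)/(1 + u²), 2uv/(1 + u²), v²) : v > 0, u ∈ ℝ}`. Through each of its
points pass exactly two isotropic circles contained in `M` near that point: a parabola with vertical
axis whose top view is a line through the origin, and a horizontal circle whose top view is
`(x - 2v)² + y² = v²`. The circles `(x - 2v)² + y² = v²` do not lie in two pencils, and no algebraic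
curve is tangent (even at one nonsingular point) to infinitely many lines through the origin.
-/


namespace Pool.Agent.Results.MP_c33e78_gt.TopViewCounterexample

section defs

open Set

/-- Space and its points `(x, y, z)`. -/
abbrev Space := ℝ × ℝ × ℝ

/-- Isotropic circles: an ellipse lying in a non-vertical plane and projecting onto a circle, or a
parabola with vertical axis. -/
def IsIsotropicCircle (K : Set Space) : Prop :=
  (∃ a b r α β γ : ℝ, 0 < r ∧
    K = {P | (P.1 - a) ^ 2 + (P.2.1 - b) ^ 2 = r ^ 2 ∧ P.2.2 = α * P.1 + β * P.2.1 + γ}) ∨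
  (∃ x₀ y₀ u w A B C : ℝ, (u, w) ≠ (0, 0) ∧ A ≠ 0 ∧
    K = {P | ∃ t : ℝ, P = (x₀ + t * u, y₀ + t * w, A * t ^ 2 + B * t + C)})

/-- Top view: orthogonal projection to the plane `z = 0`. -/
def topView (K : Set Space) : Set (ℝ × ℝ) := (fun P : Space => (P.1, P.2.1)) '' K

/-- Isotropic spheres: vertical-axis paraboloids of revolution and vertical circular cylinders. -/
def IsIsotropicSphere (K : Set Space) : Prop :=
  (∃ α β γ δ : ℝ, α ≠ 0 ∧
    K = {P | P.2.2 = α * (P.1 ^ 2 + P.2.1 ^ 2) + β * P.1 + γ * P.2.1 + δ}) ∨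
  (∃ a b r : ℝ, 0 < r ∧ K = {P | (P.1 - a) ^ 2 + (P.2.1 - b) ^ 2 = r ^ 2})

/-- Planes in space. -/
def IsPlane (K : Set Space) : Prop :=
  ∃ a b c d : ℝ, (a, b, c) ≠ (0, 0, 0) ∧ K = {P | a * P.1 + b * P.2.1 + c * P.2.2 = d}

/-- An analytic surface: an injective real analytic immersion of a planar domain. -/
structure AnalyticSurface where
  dom : Set (ℝ × ℝ)
  isOpen_dom : IsOpen dom
  isConnected_dom : IsConnected dom
  φ : ℝ × ℝ → Space
  analytic : AnalyticOnNhd ℝ φ dom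
  injOn : InjOn φ dom
  immersion : ∀ q ∈ dom, Function.Injective (fderiv ℝ φ q)

/-- The surface as a set. -/
def AnalyticSurface.carrier (M : AnalyticSurface) : Set Space := M.φ '' M.dom

/-- A choice, for every point `φ q` of the surface, of an arc `t ↦ α q t`, `-1 < t < 1`, of an
isotropic circle through that point; the arc lies in the surface and depends analytically on the
point. -/
structure IsArcFamily (M : AnalyticSurface) (α : ℝ × ℝ → ℝ → Space) : Prop where
  analytic : AnalyticOnNhd ℝ (fun p : (ℝ × ℝ) × ℝ => α p.1 p.2) (M.dom ×ˢ Ioo (-1) 1)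
  start : ∀ q ∈ M.dom, α q 0 = M.φ q
  injOn : ∀ q ∈ M.dom, InjOn (α q) (Ioo (-1) 1)
  regular : ∀ q ∈ M.dom, ∀ t ∈ Ioo (-1 : ℝ) 1, deriv (α q) t ≠ 0
  mem : ∀ q ∈ M.dom, ∀ t ∈ Ioo (-1 : ℝ) 1, α q t ∈ M.carrier
  circle : ∀ q ∈ M.dom, ∃ K, IsIsotropicCircle K ∧ ∀ t ∈ Ioo (-1 : ℝ) 1, α q t ∈ K

/-- Hypothesis (H) for the surface `M` and the two families of arcs `α`, `β`. -/
def HypH (M : AnalyticSurface) (α β : ℝ × ℝ → ℝ → Space) : Prop :=
  IsArcFamily M α ∧ IsArcFamily M β ∧ ∀ q ∈ M.dom,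
    LinearIndependent ℝ ![deriv (α q) 0, deriv (β q) 0] ∧
    ¬ ∃ K, (IsIsotropicSphere K ∨ IsPlane K) ∧ (∀ t ∈ Ioo (-1 : ℝ) 1, α q t ∈ K) ∧
      (∀ t ∈ Ioo (-1 : ℝ) 1, β q t ∈ K)

/-- The real line or circle with equation `ℓ₀ (x² + y²) + ℓ₁ x + ℓ₂ y + ℓ₃ = 0`. -/
def realZeros (l : Fin 4 → ℝ) : Set (ℝ × ℝ) :=
  {p | l 0 * (p.1 ^ 2 + p.2 ^ 2) + l 1 * p.1 + l 2 * p.2 + l 3 = 0}

open MvPolynomial in
/-- The same equation as a polynomial over `ℂ`. -/
noncomputable def complexEq (l : Fin 4 → ℝ) : MvPolynomial (Fin 2) ℂ :=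
  C (l 0 : ℂ) * (X 0 ^ 2 + X 1 ^ 2) + C (l 1 : ℂ) * X 0 + C (l 2 : ℂ) * X 1 + C (l 3 : ℂ)

open MvPolynomial in
/-- The equation of the cyclic with coefficients `k`. -/
noncomputable def cyclicEq (k : Fin 9 → ℝ) : MvPolynomial (Fin 2) ℂ :=
  C (k 0 : ℂ) * (X 0 ^ 2 + X 1 ^ 2) ^ 2 + (X 0 ^ 2 + X 1 ^ 2) * (C (k 1 : ℂ) * X 0 + C (k 2 : ℂ) * X 1)
    + (C (k 3 : ℂ) * X 0 ^ 2 + C (k 4 : ℂ) * (X 0 * X 1) + C (k 5 : ℂ) * X 1 ^ 2
      + C (k 6 : ℂ) * X 0 + C (k 7 : ℂ) * X 1 + C (k 8 : ℂ))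

open MvPolynomial in
/-- The line or circle `L = 0` is tangent at `p ∈ ℂ²` to the reduced curve `R = 0` (`R` squarefree):
`p` lies on both, is a nonsingular point of `R = 0`, `L = 0` is not contained in `R = 0`, and the
tangent lines at `p` agree. -/
def TangentAt (L R : MvPolynomial (Fin 2) ℂ) (p : Fin 2 → ℂ) : Prop :=
  eval p L = 0 ∧ eval p R = 0 ∧
  (eval p (pderiv 0 R) ≠ 0 ∨ eval p (pderiv 1 R) ≠ 0) ∧
  (∃ q, eval q L = 0 ∧ eval q R ≠ 0) ∧
  (eval p (pderiv 0 L) ≠ 0 ∨ eval p (pderiv 1 L) ≠ 0) ∧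
  eval p (pderiv 0 L) * eval p (pderiv 1 R) = eval p (pderiv 1 L) * eval p (pderiv 0 R)

/-- Alternative (a). -/
def AltA (M : AnalyticSurface) (α β : ℝ × ℝ → ℝ → Space) : Prop :=
  ∃ k : Fin 9 → ℝ, k ≠ 0 ∧ ∃ R : MvPolynomial (Fin 2) ℂ, Squarefree R ∧
    (∀ p, MvPolynomial.eval p R = 0 ↔ MvPolynomial.eval p (cyclicEq k) = 0) ∧
    ∀ q ∈ M.dom, ∀ K, IsIsotropicCircle K →
      ((∀ t ∈ Ioo (-1 : ℝ) 1, α q t ∈ K) ∨ (∀ t ∈ Ioo (-1 : ℝ) 1, β q t ∈ K)) →
      ∃ l : Fin 4 → ℝ, topView K = realZeros l ∧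
        ∃ p₁ p₂, TangentAt (complexEq l) R p₁ ∧ TangentAt (complexEq l) R p₂

/-- Alternative (b). -/
def AltB (M : AnalyticSurface) (α β : ℝ × ℝ → ℝ → Space) : Prop :=
  ∃ F₁ F₂ G₁ G₂ : Fin 4 → ℝ, LinearIndependent ℝ ![F₁, F₂] ∧ LinearIndependent ℝ ![G₁, G₂] ∧
    ∀ q ∈ M.dom, ∀ K, IsIsotropicCircle K →
      ((∀ t ∈ Ioo (-1 : ℝ) 1, α q t ∈ K) ∨ (∀ t ∈ Ioo (-1 : ℝ) 1, β q t ∈ K)) →
      (∃ c d : ℝ, (c, d) ≠ (0, 0) ∧ topView K = realZeros (c • F₁ + d • F₂)) ∨
      (∃ c d : ℝ, (c, d) ≠ (0, 0) ∧ topView K = realZeros (c • G₁ + d • G₂))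

end defs

section sard

open Polynomial Set

/-- pseudo-division -/
theorem pseudo_div (H : ℂ[X][X]) (hH : H ≠ 0) :
    ∀ (n : ℕ) (G : ℂ[X][X]), G.natDegree < n → ∃ c : ℂ[X], c ≠ 0 ∧ ∃ K R : ℂ[X][X],
      C c * G = H * K + R ∧ R.degree < H.degree := by
  intro n
  induction n with
  | zero => intro G h; exact absurd h (Nat.not_lt_zero _)
  | succ n ih =>
    intro G hG
    by_cases hlt : G.degree < H.degree
    · exact ⟨1, one_ne_zero, 0, G, by simp, hlt⟩
    have hle : H.degree ≤ G.degree := not_lt.mp hlt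
    have hG0 : G ≠ 0 := by
      rintro rfl
      rw [degree_zero] at hle
      exact hH (degree_eq_bot.mp (le_bot_iff.mp hle))
    have hnd : H.natDegree ≤ G.natDegree := natDegree_le_natDegree hle
    set h := H.leadingCoeff with hh
    set g := G.leadingCoeff with hg
    have hh0 : h ≠ 0 := leadingCoeff_ne_zero.mpr hH
    have hg0 : g ≠ 0 := leadingCoeff_ne_zero.mpr hG0
    set G' := C h * G - C g * X ^ (G.natDegree - H.natDegree) * H with hG'
    have hd1 : (C h * G).degree = G.degree := by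
      rw [degree_mul, degree_C hh0, zero_add]
    have hd2 : (C g * X ^ (G.natDegree - H.natDegree) * H).degree = G.degree := by
      rw [degree_mul, degree_mul, degree_C hg0, degree_X_pow, zero_add, degree_eq_natDegree hH,
        degree_eq_natDegree hG0, ← Nat.cast_add, Nat.sub_add_cancel hnd]
    have hlc : (C h * G).leadingCoeff = (C g * X ^ (G.natDegree - H.natDegree) * H).leadingCoeff := by
      simp only [leadingCoeff_mul, leadingCoeff_C, leadingCoeff_X_pow]
      rw [← hh, ← hg]; ring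
    have hdeg : G'.degree < G.degree := by
      rw [← hd1]
      exact degree_sub_lt_left (hd1.trans hd2.symm) (mul_ne_zero (by simpa using hh0) hG0) hlc
    by_cases hG'0 : G' = 0
    · refine ⟨h, hh0, C g * X ^ (G.natDegree - H.natDegree), 0, ?_, ?_⟩
      · have := sub_eq_zero.mp hG'0
        rw [this]; ring
      · rw [degree_zero]; exact bot_lt_iff_ne_bot.mpr (fun hb => hH (degree_eq_bot.mp hb))
    have hnat : G'.natDegree < n := by
      have h1 : G'.natDegree < G.natDegree := natDegree_lt_natDegree hG'0 hdeg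
      omega
    obtain ⟨c, hc, K, R, hKR, hR⟩ := ih G' hnat
    refine ⟨c * h, mul_ne_zero hc hh0, K + C c * (C g * X ^ (G.natDegree - H.natDegree)), R, ?_, hR⟩
    have : C c * G' = H * K + R := hKR
    rw [hG'] at this
    rw [C_mul]
    linear_combination this

/-- Sard-type lemma -/
theorem sard (G : ℂ[X][X]) :
    {m : ℂ | ∃ x : ℂ, (G.eval (C x)).eval m = 0 ∧ ((derivative G).eval (C x)).eval m = 0 ∧
      (derivative (G.eval (C x))).eval m ≠ 0}.Finite := by
  by_contra hS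
  set S := {m : ℂ | ∃ x : ℂ, (G.eval (C x)).eval m = 0 ∧ ((derivative G).eval (C x)).eval m = 0 ∧
      (derivative (G.eval (C x))).eval m ≠ 0} with hSdef
  have hSinf : S.Infinite := hS
  choose! x hx using (fun m (hm : m ∈ S) => hm)
  have hG0 : G ≠ 0 := by
    obtain ⟨m, hm⟩ := hSinf.nonempty
    intro h0
    have := (hx m hm).2.2
    simp [h0] at this
  let P : ℕ → Prop := fun k => ∃ H : ℂ[X][X], H ≠ 0 ∧ H.natDegree = k ∧
    {m ∈ S | (H.eval (C (x m))).eval m = 0}.Infinite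
  have hP : ∃ k, P k := by
    refine ⟨G.natDegree, G, hG0, rfl, ?_⟩
    refine hSinf.mono ?_
    intro m hm
    exact ⟨hm, (hx m hm).1⟩
  classical
  let k := Nat.find hP
  obtain ⟨H, hH0, hHk, hHinf⟩ : P k := Nat.find_spec hP
  have hmin : ∀ R : ℂ[X][X], R ≠ 0 → R.natDegree < k →
      ¬ {m ∈ S | (R.eval (C (x m))).eval m = 0}.Infinite := by
    intro R hR0 hRk hinf
    exact Nat.find_min hP hRk ⟨R, hR0, rfl, hinf⟩
  obtain ⟨c, hc0, K, R, hKR, hRdeg⟩ := pseudo_div H hH0 (G.natDegree + 1) G (Nat.lt_succ_self _)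
  have hR0 : R = 0 := by
    by_contra hR0
    have hlt : R.natDegree < k := by
      rw [← hHk]; exact natDegree_lt_natDegree hR0 hRdeg
    apply hmin R hR0 hlt
    refine hHinf.mono ?_
    rintro m ⟨hm, hHm⟩
    refine ⟨hm, ?_⟩
    have h1 := congrArg (fun Q : ℂ[X][X] => (Q.eval (C (x m))).eval m) hKR
    simp only [eval_mul, eval_add, eval_C, (hx m hm).1, hHm] at h1
    simpa using h1.symm
  rw [hR0, add_zero] at hKR
  -- the set of good parameters
  have hcfin : {m : ℂ | c.eval m = 0}.Finite := by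
    have := c.roots.toFinset.finite_toSet
    refine this.subset ?_
    intro m hm
    simp only [Finset.mem_coe, Multiset.mem_toFinset]
    exact (mem_roots hc0).mpr hm
  have hgood : ({m ∈ S | (H.eval (C (x m))).eval m = 0} \ {m : ℂ | c.eval m = 0}).Infinite :=
    hHinf.sdiff hcfin
  have hder : ∀ m ∈ ({m ∈ S | (H.eval (C (x m))).eval m = 0} \ {m : ℂ | c.eval m = 0}),
      ((derivative H).eval (C (x m))).eval m = 0 := by
    rintro m ⟨⟨hm, hHm⟩, hcm⟩
    have hcm' : c.eval m ≠ 0 := hcm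
    have h1 := congrArg (fun Q : ℂ[X][X] => ((derivative Q).eval (C (x m))).eval m) hKR
    simp only [derivative_mul, derivative_C, zero_mul, zero_add, eval_mul, eval_add, eval_C,
      (hx m hm).2.1, hHm, mul_zero, add_zero] at h1
    have h2 := congrArg (fun Q : ℂ[X][X] => (derivative (Q.eval (C (x m)))).eval m) hKR
    simp only [eval_mul, eval_C, derivative_mul, eval_add, (hx m hm).1, hHm, mul_zero, zero_mul,
      zero_add, add_zero] at h2
    have hK : (K.eval (C (x m))).eval m ≠ 0 := by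
      intro hK0
      rw [hK0, mul_zero] at h2
      rcases mul_eq_zero.mp h2 with h | h
      · exact hcm' h
      · exact (hx m hm).2.2 h
    rcases mul_eq_zero.mp h1.symm with h | h
    · exact h
    · exact absurd h hK
  by_cases hd0 : derivative H = 0
  · have hconst : H = C (H.coeff 0) := by
      exact eq_C_of_derivative_eq_zero hd0
    have hroots : {m ∈ S | (H.eval (C (x m))).eval m = 0} ⊆ {m : ℂ | (H.coeff 0).eval m = 0} := by
      rintro m ⟨hm, hHm⟩
      rw [hconst] at hHm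
      simpa using hHm
    have hne : H.coeff 0 ≠ 0 := by
      intro h0
      rw [h0, C_0] at hconst
      exact hH0 hconst
    have hfin : {m : ℂ | (H.coeff 0).eval m = 0}.Finite := by
      have := (H.coeff 0).roots.toFinset.finite_toSet
      refine this.subset ?_
      intro m hm
      simp only [Finset.mem_coe, Multiset.mem_toFinset]
      exact (mem_roots hne).mpr hm
    exact hHinf (hfin.subset hroots)
  · have hlt : (derivative H).natDegree < k := by
      rw [← hHk]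
      apply natDegree_derivative_lt
      intro h0
      apply hd0
      rw [eq_C_of_natDegree_eq_zero h0, derivative_C]
    apply hmin _ hd0 hlt
    refine hgood.mono ?_
    intro m hm
    exact ⟨hm.1.1, hder m hm⟩

noncomputable def lineSub (R : MvPolynomial (Fin 2) ℂ) : ℂ[X][X] :=
  MvPolynomial.aeval (![X, C X * X] : Fin 2 → ℂ[X][X]) R

theorem lineSub_eval (R : MvPolynomial (Fin 2) ℂ) (x m : ℂ) :
    ((lineSub R).eval (C x)).eval m = MvPolynomial.eval ![x, m * x] R := by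
  unfold lineSub
  induction R using MvPolynomial.induction_on with
  | C a => simp [MvPolynomial.aeval_C, Polynomial.algebraMap_apply]
  | add p q hp hq => simp [hp, hq]
  | mul_X p i hp =>
    fin_cases i
    · simp [hp]
    · simp [hp]
      exact Or.inl (mul_comm _ _)

theorem lineSub_deriv (R : MvPolynomial (Fin 2) ℂ) (x m : ℂ) :
    ((derivative (lineSub R)).eval (C x)).eval m =
      MvPolynomial.eval ![x, m * x] (MvPolynomial.pderiv 0 R)
        + m * MvPolynomial.eval ![x, m * x] (MvPolynomial.pderiv 1 R) := by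
  induction R using MvPolynomial.induction_on with
  | C a => simp [lineSub, MvPolynomial.aeval_C, Polynomial.algebraMap_apply]
  | add p q hp hq =>
    have : lineSub (p + q) = lineSub p + lineSub q := by simp [lineSub]
    rw [this]; simp only [derivative_add, eval_add, hp, hq, map_add]; ring
  | mul_X p i hp =>
    have h : lineSub (p * MvPolynomial.X i) = lineSub p * (![X, C X * X] : Fin 2 → ℂ[X][X]) i := by
      simp [lineSub]
    have he := lineSub_eval p x m
    rw [h]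
    fin_cases i
    · simp only [derivative_mul, eval_add, eval_mul, hp, he]
      simp [MvPolynomial.pderiv_X, Derivation.leibniz]
      ring
    · simp only [derivative_mul, eval_add, eval_mul, hp, he]
      simp [MvPolynomial.pderiv_X, Derivation.leibniz]
      ring

theorem lineSub_deriv2 (R : MvPolynomial (Fin 2) ℂ) (x m : ℂ) :
    (derivative ((lineSub R).eval (C x))).eval m =
      x * MvPolynomial.eval ![x, m * x] (MvPolynomial.pderiv 1 R) := by
  induction R using MvPolynomial.induction_on with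
  | C a => simp [lineSub, MvPolynomial.aeval_C, Polynomial.algebraMap_apply]
  | add p q hp hq =>
    have : lineSub (p + q) = lineSub p + lineSub q := by simp [lineSub]
    rw [this]; simp only [derivative_add, eval_add, hp, hq, map_add]; ring
  | mul_X p i hp =>
    have h : lineSub (p * MvPolynomial.X i) = lineSub p * (![X, C X * X] : Fin 2 → ℂ[X][X]) i := by
      simp [lineSub]
    have he := lineSub_eval p x m
    rw [h]
    fin_cases i
    · simp only [derivative_mul, eval_add, eval_mul, hp, he]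
      simp [MvPolynomial.pderiv_X, Derivation.leibniz]
      ring
    · simp only [derivative_mul, eval_add, eval_mul, hp, he]
      simp [MvPolynomial.pderiv_X, Derivation.leibniz]
      ring

end sard

section classify

open Set Polynomial

/-- the carrier of the surface satisfies these relations -/
def Rel (P : ℝ × ℝ × ℝ) : Prop :=
  0 < P.1 ∧ 0 < P.2.2 ∧ (P.1 ^ 2 + P.2.1 ^ 2 + 3 * P.2.2) ^ 2 = 16 * P.1 ^ 2 * P.2.2

theorem infinite_poly {T : Set ℝ} (hT : T.Infinite) (p : ℝ[X]) (h : ∀ t ∈ T, p.eval t = 0) :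
    p = 0 :=
  Polynomial.eq_zero_of_infinite_isRoot p (hT.mono (fun t ht => h t ht))

theorem classify_parabola {x₀ y₀ u w A B C : ℝ} (huw : (u, w) ≠ (0, 0)) (hA : A ≠ 0)
    {T : Set ℝ} (hT : T.Infinite)
    (h : ∀ t ∈ T, Rel (x₀ + t * u, y₀ + t * w, A * t ^ 2 + B * t + C)) :
    ∃ m κ : ℝ, {P : ℝ × ℝ × ℝ | ∃ t : ℝ, P = (x₀ + t * u, y₀ + t * w, A * t ^ 2 + B * t + C)} =
      {P | P.2.1 = m * P.1 ∧ P.2.2 = κ * P.1 ^ 2} := by
  -- polynomial identity
  let x : ℝ[X] := Polynomial.C x₀ + X * Polynomial.C u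
  let y : ℝ[X] := Polynomial.C y₀ + X * Polynomial.C w
  let z : ℝ[X] := Polynomial.C A * X ^ 2 + Polynomial.C B * X + Polynomial.C C
  have hp : (x ^ 2 + y ^ 2 + 3 * z) ^ 2 - 16 * x ^ 2 * z = 0 := by
    apply infinite_poly hT
    intro t ht
    have := (h t ht).2.2
    simp only [x, y, z, eval_sub, eval_pow, eval_add, eval_mul, eval_C, eval_X, eval_ofNat] at *
    linarith
  have hid : ∀ t : ℝ, ((x₀ + t * u) ^ 2 + (y₀ + t * w) ^ 2 + 3 * (A * t ^ 2 + B * t + C)) ^ 2
      = 16 * (x₀ + t * u) ^ 2 * (A * t ^ 2 + B * t + C) := by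
    intro t
    have := congrArg (Polynomial.eval t) hp
    simp only [x, y, z, eval_sub, eval_pow, eval_add, eval_mul, eval_C, eval_X, eval_ofNat,
      eval_zero] at this
    linarith
  obtain ⟨t₀, ht₀⟩ := hT.nonempty
  by_cases hu : u = 0
  · exfalso
    subst hu
    have hx₀ : 0 < x₀ := by simpa using (h t₀ ht₀).1
    have hw : w ≠ 0 := by
      intro hw; exact huw (by simp [hw])
    have h4 : (w ^ 2 + 3 * A) ^ 2 = 0 := by
      linear_combination (1 / 24 : ℝ) * hid 2 - (4 / 24 : ℝ) * hid 1 + (6 / 24 : ℝ) * hid 0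
        - (4 / 24 : ℝ) * hid (-1) + (1 / 24 : ℝ) * hid (-2)
    have h4' : w ^ 2 + 3 * A = 0 := by simpa using h4
    have hAneg : A < 0 := by
      have : 0 < w ^ 2 := by positivity
      linarith
    have hA' : A = - w ^ 2 / 3 := by linarith
    have h2 : 16 * x₀ ^ 2 * A = (2 * y₀ * w + 3 * B) ^ 2 := by
      subst hA'
      linear_combination (-1 / 2 : ℝ) * hid 1 + hid 0 - (1 / 2 : ℝ) * hid (-1)
    nlinarith [sq_nonneg (2 * y₀ * w + 3 * B), mul_pos hx₀ hx₀]
  · -- shift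
    set t₁ := -x₀ / u with ht₁
    have hx : ∀ s : ℝ, x₀ + (t₁ + s) * u = s * u := by
      intro s; rw [ht₁]; field_simp; ring
    set y₁ := y₀ + t₁ * w with hy₁
    set B₁ := 2 * A * t₁ + B with hB₁
    set C₁ := A * t₁ ^ 2 + B * t₁ + C with hC₁
    have hid' : ∀ s : ℝ, ((s * u) ^ 2 + (y₁ + s * w) ^ 2 + 3 * (A * s ^ 2 + B₁ * s + C₁)) ^ 2
        = 16 * (s * u) ^ 2 * (A * s ^ 2 + B₁ * s + C₁) := by
      intro s
      have h1 := hid (t₁ + s)
      rw [hx s] at h1
      have e1 : y₀ + (t₁ + s) * w = y₁ + s * w := by rw [hy₁]; ring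
      have e2 : A * (t₁ + s) ^ 2 + B * (t₁ + s) + C = A * s ^ 2 + B₁ * s + C₁ := by
        rw [hB₁, hC₁]; ring
      rw [e1, e2] at h1
      exact h1
    have h0 : y₁ ^ 2 + 3 * C₁ = 0 := by
      have := hid' 0
      have h2 : (y₁ ^ 2 + 3 * C₁) ^ 2 = 0 := by linear_combination this
      simpa using h2
    have hq : ∀ s : ℝ, s ≠ 0 → 16 * u ^ 2 * (A * s ^ 2 + B₁ * s + C₁) =
        ((2 * y₁ * w + 3 * B₁) + (u ^ 2 + w ^ 2 + 3 * A) * s) ^ 2 := by
      intro s hs
      have h1 := hid' s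
      have h2 : s ^ 2 * (16 * u ^ 2 * (A * s ^ 2 + B₁ * s + C₁)) =
        s ^ 2 * ((2 * y₁ * w + 3 * B₁) + (u ^ 2 + w ^ 2 + 3 * A) * s) ^ 2 := by
        have h3 : y₁ ^ 2 = - (3 * C₁) := by linarith
        have h4 : (s * u) ^ 2 + (y₁ + s * w) ^ 2 + 3 * (A * s ^ 2 + B₁ * s + C₁)
          = s * ((2 * y₁ * w + 3 * B₁) + (u ^ 2 + w ^ 2 + 3 * A) * s) := by
          linear_combination h3
        rw [h4] at h1
        linear_combination -h1
      exact mul_left_cancel₀ (pow_ne_zero 2 hs) h2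
    have h5 : 16 * u ^ 2 * C₁ = (2 * y₁ * w + 3 * B₁) ^ 2 := by
      have a1 := hq 1 one_ne_zero
      have a2 := hq 2 two_ne_zero
      have a3 := hq 3 three_ne_zero
      linear_combination 3 * a1 - 3 * a2 + a3
    have hu2 : 0 < u ^ 2 := by positivity
    have hC0 : C₁ = 0 := by
      have hC_nonneg : 0 ≤ C₁ := by
        by_contra hneg
        push Not at hneg
        nlinarith [sq_nonneg (2 * y₁ * w + 3 * B₁)]
      nlinarith [sq_nonneg y₁]
    have hy0 : y₁ = 0 := by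
      rw [hC0] at h0
      have : y₁ ^ 2 = 0 := by linarith
      simpa using this
    have hB0 : B₁ = 0 := by
      rw [hC0, hy0] at h5
      have : (3 * B₁) ^ 2 = 0 := by linarith
      simpa using this
    refine ⟨w / u, A / u ^ 2, ?_⟩
    ext P
    constructor
    · rintro ⟨t, rfl⟩
      have ex : x₀ + t * u = (t - t₁) * u := by
        have := hx (t - t₁); rw [← this]; ring
      have ey : y₀ + t * w = (t - t₁) * w := by
        have : y₀ + t * w = y₁ + (t - t₁) * w := by rw [hy₁]; ring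
        rw [this, hy0, zero_add]
      have ez : A * t ^ 2 + B * t + C = A * (t - t₁) ^ 2 := by
        have : A * t ^ 2 + B * t + C = A * (t - t₁) ^ 2 + B₁ * (t - t₁) + C₁ := by
          rw [hB₁, hC₁]; ring
        rw [this, hB0, hC0]; ring
      simp only [mem_ofPred_eq, ex, ey, ez]
      constructor
      · field_simp
      · field_simp
    · rintro ⟨h1, h2⟩
      refine ⟨t₁ + P.1 / u, ?_⟩
      have ex : x₀ + (t₁ + P.1 / u) * u = P.1 := by
        rw [hx]; field_simp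
      have ey : y₀ + (t₁ + P.1 / u) * w = P.2.1 := by
        have : y₀ + (t₁ + P.1 / u) * w = y₁ + P.1 / u * w := by rw [hy₁]; ring
        rw [this, hy0, zero_add, h1]; field_simp
      have ez : A * (t₁ + P.1 / u) ^ 2 + B * (t₁ + P.1 / u) + C = P.2.2 := by
        have : A * (t₁ + P.1 / u) ^ 2 + B * (t₁ + P.1 / u) + C
            = A * (P.1 / u) ^ 2 + B₁ * (P.1 / u) + C₁ := by
          rw [hB₁, hC₁]; ring
        rw [this, hB0, hC0, h2]; field_simp; ring
      ext
      · exact ex.symm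
      · exact ey.symm
      · exact ez.symm

theorem classify_ellipse {a b r α β γ : ℝ} (hr : 0 < r)
    {T : Set ℝ} (hT : T.Infinite)
    (h : ∀ t ∈ T, ∃ x y z : ℝ, Rel (x, y, z) ∧ x * (1 + t ^ 2) = a * (1 + t ^ 2) + r * (1 - t ^ 2) ∧
      y * (1 + t ^ 2) = b * (1 + t ^ 2) + 2 * r * t ∧ z = α * x + β * y + γ) :
    α = 0 ∧ β = 0 ∧ 0 < γ ∧ a = 2 * Real.sqrt γ ∧ b = 0 ∧ r = Real.sqrt γ := by
  let T' : ℝ[X] := 1 + X ^ 2
  let x : ℝ[X] := Polynomial.C a * T' + Polynomial.C r * (1 - X ^ 2)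
  let y : ℝ[X] := Polynomial.C b * T' + Polynomial.C (2 * r) * X
  let z : ℝ[X] := Polynomial.C α * x + Polynomial.C β * y + Polynomial.C γ * T'
  let W : ℝ[X] := Polynomial.C (2 * a) * x + Polynomial.C (2 * b) * y
    + Polynomial.C (r ^ 2 - a ^ 2 - b ^ 2) * T'
  have hp : (W + 3 * z) ^ 2 * T' - 16 * x ^ 2 * z = 0 := by
    apply infinite_poly hT
    intro t ht
    obtain ⟨X0, Y0, Z0, hrel, hX, hY, hZ⟩ := h t ht
    have hrel2 := hrel.2.2
    simp only at hrel2
    have hpos : (0 : ℝ) < 1 + t ^ 2 := by positivity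
    have ex : x.eval t = X0 * (1 + t ^ 2) := by simp [x, T', hX]
    have ey : y.eval t = Y0 * (1 + t ^ 2) := by simp [y, T', hY]
    have ez : z.eval t = Z0 * (1 + t ^ 2) := by
      have : z.eval t = α * x.eval t + β * y.eval t + γ * (1 + t ^ 2) := by simp [z, T']
      rw [this, ex, ey, hZ]; ring
    have eW : W.eval t = (X0 ^ 2 + Y0 ^ 2) * (1 + t ^ 2) := by
      have h1 : W.eval t = 2 * a * x.eval t + 2 * b * y.eval t + (r ^ 2 - a ^ 2 - b ^ 2) * (1 + t ^ 2) := by
        simp [W, T']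
      rw [h1, ex, ey]
      have h2 : ((X0 - a) ^ 2 + (Y0 - b) ^ 2) = r ^ 2 := by
        have h3 : (X0 - a) * (1 + t ^ 2) = r * (1 - t ^ 2) := by linear_combination hX
        have h4 : (Y0 - b) * (1 + t ^ 2) = 2 * r * t := by linear_combination hY
        have h5 : ((X0 - a) ^ 2 + (Y0 - b) ^ 2) * (1 + t ^ 2) ^ 2 = r ^ 2 * (1 + t ^ 2) ^ 2 := by
          have : ((X0 - a) ^ 2 + (Y0 - b) ^ 2) * (1 + t ^ 2) ^ 2
            = ((X0 - a) * (1 + t ^ 2)) ^ 2 + ((Y0 - b) * (1 + t ^ 2)) ^ 2 := by ring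
          rw [this, h3, h4]; ring
        exact mul_right_cancel₀ (pow_ne_zero 2 hpos.ne') h5
      linear_combination (1 + t ^ 2) * (-h2)
    have eT : T'.eval t = 1 + t ^ 2 := by simp [T']
    simp only [eval_sub, eval_mul, eval_pow, eval_add, eval_ofNat, ex, ez, eW, eT]
    linear_combination (1 + t ^ 2) ^ 3 * hrel2
  have hI := congrArg (Polynomial.aeval Complex.I) hp
  have hTI : Polynomial.aeval Complex.I T' = 0 := by simp [T']
  have hxI : Polynomial.aeval Complex.I x = (2 * r : ℝ) := by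
    simp only [x, map_add, map_mul, hTI, mul_zero, zero_add]
    simp; ring
  have hyI : Polynomial.aeval Complex.I y = (2 * r : ℝ) * Complex.I := by
    simp only [y, map_add, map_mul, hTI, mul_zero, zero_add]
    simp
  have hzI : Polynomial.aeval Complex.I z = (2 * r : ℝ) * ((α : ℂ) + (β : ℂ) * Complex.I) := by
    simp only [z, map_add, map_mul, hTI, mul_zero, add_zero, hxI, hyI]
    simp; ring
  simp only [map_sub, map_mul, map_pow, hTI, hxI, hzI, mul_zero, zero_sub, map_zero] at hI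
  have hr' : ((2 * r : ℝ) : ℂ) ≠ 0 := by
    exact_mod_cast (by positivity : (2 * r : ℝ) ≠ 0)
  have h16 : (Polynomial.aeval Complex.I (16 : ℝ[X])) = (16 : ℂ) := map_ofNat _ 16
  rw [h16] at hI
  have hab : (α : ℂ) + (β : ℂ) * Complex.I = 0 := by
    have h1 := neg_eq_zero.mp hI
    rcases mul_eq_zero.mp h1 with h2 | h2
    · rcases mul_eq_zero.mp h2 with h3 | h3
      · norm_num at h3
      · exact absurd (pow_eq_zero_iff (two_ne_zero) |>.mp h3) hr'
    · rcases mul_eq_zero.mp h2 with h3 | h3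
      · exact absurd h3 hr'
      · exact h3
  have hα : α = 0 := by
    have := congrArg Complex.re hab; simpa using this
  have hβ : β = 0 := by
    have := congrArg Complex.im hab; simpa using this
  subst hα hβ
  -- now the height is constant
  obtain ⟨t₀, ht₀⟩ := hT.nonempty
  have hγ : 0 < γ := by
    obtain ⟨X0, Y0, Z0, hrel, hX, hY, hZ⟩ := h t₀ ht₀
    have := hrel.2.1
    simp only at this
    rw [hZ] at this; simpa using this
  set v := Real.sqrt γ with hv
  have hvpos : 0 < v := Real.sqrt_pos.mpr hγ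
  have hv2 : v ^ 2 = γ := Real.sq_sqrt hγ.le
  have hq : Polynomial.C (2 * a - 4 * v) * x + Polynomial.C (2 * b) * y
      + Polynomial.C (r ^ 2 - a ^ 2 - b ^ 2 + 3 * v ^ 2) * T' = 0 := by
    apply infinite_poly hT
    intro t ht
    obtain ⟨X0, Y0, Z0, hrel, hX, hY, hZ⟩ := h t ht
    have hrel2 := hrel.2.2
    have hx0 := hrel.1
    simp only at hrel2 hx0
    have hpos : (0 : ℝ) < 1 + t ^ 2 := by positivity
    have ex : x.eval t = X0 * (1 + t ^ 2) := by simp [x, T', hX]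
    have ey : y.eval t = Y0 * (1 + t ^ 2) := by simp [y, T', hY]
    have eT : T'.eval t = 1 + t ^ 2 := by simp [T']
    have hZ' : Z0 = v ^ 2 := by rw [hZ, hv2]; ring
    have hlin : X0 ^ 2 + Y0 ^ 2 + 3 * v ^ 2 = 4 * v * X0 := by
      rw [hZ'] at hrel2
      have h1 : (X0 ^ 2 + Y0 ^ 2 + 3 * v ^ 2) ^ 2 = (4 * v * X0) ^ 2 := by
        rw [hrel2]; ring
      have h2 : 0 ≤ X0 ^ 2 + Y0 ^ 2 + 3 * v ^ 2 := by positivity
      have h3 : 0 ≤ 4 * v * X0 := by positivity
      exact (pow_left_inj₀ h2 h3 two_ne_zero).mp h1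
    have h2 : ((X0 - a) ^ 2 + (Y0 - b) ^ 2) = r ^ 2 := by
      have h3 : (X0 - a) * (1 + t ^ 2) = r * (1 - t ^ 2) := by linear_combination hX
      have h4 : (Y0 - b) * (1 + t ^ 2) = 2 * r * t := by linear_combination hY
      have h5 : ((X0 - a) ^ 2 + (Y0 - b) ^ 2) * (1 + t ^ 2) ^ 2 = r ^ 2 * (1 + t ^ 2) ^ 2 := by
        have : ((X0 - a) ^ 2 + (Y0 - b) ^ 2) * (1 + t ^ 2) ^ 2
          = ((X0 - a) * (1 + t ^ 2)) ^ 2 + ((Y0 - b) * (1 + t ^ 2)) ^ 2 := by ring
        rw [this, h3, h4]; ring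
      exact mul_right_cancel₀ (pow_ne_zero 2 hpos.ne') h5
    simp only [eval_mul, eval_add, eval_C, ex, ey, eT]
    linear_combination (1 + t ^ 2) * (hlin - h2)
  have ev : ∀ t : ℝ, (2 * a - 4 * v) * (a * (1 + t ^ 2) + r * (1 - t ^ 2))
      + 2 * b * (b * (1 + t ^ 2) + 2 * r * t) + (r ^ 2 - a ^ 2 - b ^ 2 + 3 * v ^ 2) * (1 + t ^ 2) = 0 := by
    intro t
    have := congrArg (Polynomial.eval t) hq
    simpa [x, y, T'] using this
  have e0 := ev 0
  have e1 := ev 1
  have em1 := ev (-1)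
  have hb : b = 0 := by
    have : 8 * (b * r) = 0 := by linear_combination e1 - em1
    have : b * r = 0 := by linarith
    rcases mul_eq_zero.mp this with h1 | h1
    · exact h1
    · exact absurd h1 hr.ne'
  subst hb
  have ha : a = 2 * v := by
    have : (2 * a - 4 * v) * r * 4 = 0 := by linear_combination 2 * (2 * e0 - (e1 + em1) / 2)
    have h1 : (2 * a - 4 * v) * r = 0 := by linarith
    rcases mul_eq_zero.mp h1 with h1 | h1
    · linarith
    · exact absurd h1 hr.ne'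
  subst ha
  have hrv : r ^ 2 = v ^ 2 := by linear_combination e0
  refine ⟨rfl, rfl, hγ, rfl, rfl, ?_⟩
  exact (pow_left_inj₀ hr.le hvpos.le two_ne_zero).mp hrv

end classify

section surface

open Set

noncomputable def phi (q : ℝ × ℝ) : ℝ × ℝ × ℝ :=
  (q.1 * ((3 + q.2 ^ 2) / (1 + q.2 ^ 2)), q.1 * (2 * q.2 / (1 + q.2 ^ 2)), q.1 ^ 2)

def domn : Set (ℝ × ℝ) := {q | 0 < q.1}

theorem pos1 (u : ℝ) : (0 : ℝ) < 1 + u ^ 2 := by positivity

theorem analytic_phi (q : ℝ × ℝ) : AnalyticAt ℝ phi q := by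
  unfold phi
  have h1 : AnalyticAt ℝ (fun q : ℝ × ℝ => q.1) q := analyticAt_fst
  have h2 : AnalyticAt ℝ (fun q : ℝ × ℝ => q.2) q := analyticAt_snd
  have h3 : (1 + q.2 ^ 2) ≠ 0 := (pos1 q.2).ne'
  have hden : AnalyticAt ℝ (fun q : ℝ × ℝ => 1 + q.2 ^ 2) q := analyticAt_const.add (h2.pow 2)
  have hn1 : AnalyticAt ℝ (fun q : ℝ × ℝ => 3 + q.2 ^ 2) q := analyticAt_const.add (h2.pow 2)
  have hn2 : AnalyticAt ℝ (fun q : ℝ × ℝ => 2 * q.2) q := analyticAt_const.mul h2
  exact (h1.mul (hn1.div hden h3)).prod ((h1.mul (hn2.div hden h3)).prod (h1.pow 2))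

/-- a left inverse -/
noncomputable def psi (P : ℝ × ℝ × ℝ) : ℝ × ℝ :=
  (Real.sqrt P.2.2, P.2.1 / (P.1 - Real.sqrt P.2.2))

theorem psi_phi {q : ℝ × ℝ} (hq : q ∈ domn) : psi (phi q) = q := by
  have hv : 0 < q.1 := hq
  have h1 : Real.sqrt (q.1 ^ 2) = q.1 := Real.sqrt_sq hv.le
  have h2 := pos1 q.2
  unfold psi phi
  simp only [h1]
  ext
  · rfl
  · simp only
    have h3 : q.1 * ((3 + q.2 ^ 2) / (1 + q.2 ^ 2)) - q.1 = q.1 * (2 / (1 + q.2 ^ 2)) := by
      field_simp; ring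
    rw [h3]
    field_simp

theorem isOpen_domn : IsOpen domn := isOpen_lt continuous_const continuous_fst

theorem isConnected_domn : IsConnected domn := by
  have hc : Convex ℝ domn := by
    intro x hx y hy a b ha hb hab
    have hx' : 0 < x.1 := hx
    have hy' : 0 < y.1 := hy
    show 0 < (a • x + b • y).1
    simp only [Prod.fst_add, Prod.smul_fst, smul_eq_mul]
    rcases ha.eq_or_lt with h | h
    · have : b = 1 := by linarith
      subst this; rw [← h]; linarith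
    · have := mul_pos h hx'
      have := mul_nonneg hb hy'.le
      linarith
  exact ⟨⟨(1, 0), show (0 : ℝ) < 1 from one_pos⟩, hc.isPreconnected⟩

theorem immersion_phi {q : ℝ × ℝ} (hq : q ∈ domn) : Function.Injective (fderiv ℝ phi q) := by
  have hv : 0 < q.1 := hq
  have hd : DifferentiableAt ℝ phi q := (analytic_phi q).differentiableAt
  have hz : (phi q).2.2 ≠ 0 := by
    show q.1 ^ 2 ≠ 0
    positivity
  have hs : Real.sqrt ((phi q).2.2) = q.1 := by
    show Real.sqrt (q.1 ^ 2) = q.1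
    exact Real.sqrt_sq hv.le
  have hden : (phi q).1 - Real.sqrt ((phi q).2.2) ≠ 0 := by
    rw [hs]
    show q.1 * ((3 + q.2 ^ 2) / (1 + q.2 ^ 2)) - q.1 ≠ 0
    have h2 := pos1 q.2
    have h3 : q.1 * ((3 + q.2 ^ 2) / (1 + q.2 ^ 2)) - q.1 = q.1 * (2 / (1 + q.2 ^ 2)) := by
      field_simp; ring
    rw [h3]
    positivity
  have hpsi : DifferentiableAt ℝ psi (phi q) := by
    have a1 : DifferentiableAt ℝ (fun P : ℝ × ℝ × ℝ => P.2.2) (phi q) := by fun_prop
    have a2 : DifferentiableAt ℝ (fun P : ℝ × ℝ × ℝ => Real.sqrt P.2.2) (phi q) := a1.sqrt hz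
    have a3 : DifferentiableAt ℝ (fun P : ℝ × ℝ × ℝ => P.1) (phi q) := by fun_prop
    have a4 : DifferentiableAt ℝ (fun P : ℝ × ℝ × ℝ => P.2.1) (phi q) := by fun_prop
    have a5 : DifferentiableAt ℝ (fun P : ℝ × ℝ × ℝ => P.1 - Real.sqrt P.2.2) (phi q) := a3.sub a2
    have a6 : DifferentiableAt ℝ (fun P : ℝ × ℝ × ℝ => P.2.1 / (P.1 - Real.sqrt P.2.2)) (phi q) := by
      have h7 : DifferentiableAt ℝ (fun P : ℝ × ℝ × ℝ => (P.1 - Real.sqrt P.2.2)⁻¹) (phi q) := by
        refine DifferentiableAt.fun_inv a5 ?_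
        exact hden
      have h8 := DifferentiableAt.fun_mul a4 h7
      simpa only [div_eq_mul_inv] using h8
    exact a2.prodMk a6
  have hcomp : fderiv ℝ (psi ∘ phi) q = (fderiv ℝ psi (phi q)).comp (fderiv ℝ phi q) :=
    fderiv_comp q hpsi hd
  have hid : fderiv ℝ (psi ∘ phi) q = ContinuousLinearMap.id ℝ (ℝ × ℝ) := by
    have heq : (psi ∘ phi) =ᶠ[nhds q] id := by
      filter_upwards [isOpen_domn.mem_nhds hq] with p hp
      exact psi_phi hp
    rw [heq.fderiv_eq]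
    exact fderiv_id
  rw [hid] at hcomp
  intro a b hab
  have h1 := congrArg (fun L : (ℝ × ℝ) →L[ℝ] (ℝ × ℝ) => L a) hcomp
  have h2 := congrArg (fun L : (ℝ × ℝ) →L[ℝ] (ℝ × ℝ) => L b) hcomp
  simp only [ContinuousLinearMap.id_apply, ContinuousLinearMap.comp_apply] at h1 h2
  rw [h1, h2, hab]

/-- first arcs -/
noncomputable def arc1 (q : ℝ × ℝ) (t : ℝ) : ℝ × ℝ × ℝ := phi (q.1 * (1 + t / 2), q.2)

noncomputable def arc2 (q : ℝ × ℝ) (t : ℝ) : ℝ × ℝ × ℝ := phi (q.1, q.2 + t)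

theorem analytic_arc1 (p : (ℝ × ℝ) × ℝ) :
    AnalyticAt ℝ (fun p : (ℝ × ℝ) × ℝ => arc1 p.1 p.2) p := by
  unfold arc1
  have h : AnalyticAt ℝ (fun p : (ℝ × ℝ) × ℝ => ((p.1.1 * (1 + p.2 / 2), p.1.2) : ℝ × ℝ)) p := by
    have h1 : AnalyticAt ℝ (fun p : (ℝ × ℝ) × ℝ => p.1) p := analyticAt_fst
    have h2 : AnalyticAt ℝ (fun p : (ℝ × ℝ) × ℝ => p.2) p := analyticAt_snd
    have h11 : AnalyticAt ℝ (fun p : (ℝ × ℝ) × ℝ => p.1.1) p := analyticAt_fst.comp h1
    have h12 : AnalyticAt ℝ (fun p : (ℝ × ℝ) × ℝ => p.1.2) p := analyticAt_snd.comp h1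
    exact (h11.mul (analyticAt_const.add (h2.div analyticAt_const two_ne_zero))).prod h12
  exact (analytic_phi _).comp h

theorem analytic_arc2 (p : (ℝ × ℝ) × ℝ) :
    AnalyticAt ℝ (fun p : (ℝ × ℝ) × ℝ => arc2 p.1 p.2) p := by
  unfold arc2
  have h : AnalyticAt ℝ (fun p : (ℝ × ℝ) × ℝ => ((p.1.1, p.1.2 + p.2) : ℝ × ℝ)) p := by
    have h1 : AnalyticAt ℝ (fun p : (ℝ × ℝ) × ℝ => p.1) p := analyticAt_fst
    have h2 : AnalyticAt ℝ (fun p : (ℝ × ℝ) × ℝ => p.2) p := analyticAt_snd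
    have h11 : AnalyticAt ℝ (fun p : (ℝ × ℝ) × ℝ => p.1.1) p := analyticAt_fst.comp h1
    have h12 : AnalyticAt ℝ (fun p : (ℝ × ℝ) × ℝ => p.1.2) p := analyticAt_snd.comp h1
    exact h11.prod (h12.add h2)
  exact (analytic_phi _).comp h

theorem deriv_arc1 (q : ℝ × ℝ) (t : ℝ) : HasDerivAt (arc1 q)
    (q.1 / 2 * ((3 + q.2 ^ 2) / (1 + q.2 ^ 2)), q.1 / 2 * (2 * q.2 / (1 + q.2 ^ 2)),
      q.1 ^ 2 * (1 + t / 2)) t := by
  have h0 : HasDerivAt (fun t : ℝ => q.1 * (1 + t / 2)) (q.1 / 2) t := by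
    have h : HasDerivAt (fun t : ℝ => q.1 * (1 + t / 2)) (q.1 * (1 / 2)) t :=
      (((hasDerivAt_id t).div_const 2).const_add 1).const_mul q.1
    exact h.congr_deriv (by ring)
  have h1 : HasDerivAt (fun t : ℝ => q.1 * (1 + t / 2) * ((3 + q.2 ^ 2) / (1 + q.2 ^ 2)))
    (q.1 / 2 * ((3 + q.2 ^ 2) / (1 + q.2 ^ 2))) t := h0.mul_const _
  have h2 : HasDerivAt (fun t : ℝ => q.1 * (1 + t / 2) * (2 * q.2 / (1 + q.2 ^ 2)))
    (q.1 / 2 * (2 * q.2 / (1 + q.2 ^ 2))) t := h0.mul_const _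
  have h3 : HasDerivAt (fun t : ℝ => (q.1 * (1 + t / 2)) ^ 2) (q.1 ^ 2 * (1 + t / 2)) t := by
    have h := h0.pow 2
    exact h.congr_deriv (by push_cast; ring)
  exact h1.prodMk (h2.prodMk h3)

theorem deriv_arc2 (q : ℝ × ℝ) (t : ℝ) : HasDerivAt (arc2 q)
    (q.1 * (-4 * (q.2 + t) / (1 + (q.2 + t) ^ 2) ^ 2),
      q.1 * (2 * (1 - (q.2 + t) ^ 2) / (1 + (q.2 + t) ^ 2) ^ 2), 0) t := by
  have h0 : HasDerivAt (fun t : ℝ => q.2 + t) 1 t := (hasDerivAt_id t).const_add q.2
  have hsq : HasDerivAt (fun t : ℝ => (q.2 + t) ^ 2) (2 * (q.2 + t)) t := by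
    have h := h0.pow 2
    exact h.congr_deriv (by push_cast; ring)
  have hden : HasDerivAt (fun t : ℝ => 1 + (q.2 + t) ^ 2) (2 * (q.2 + t)) t := hsq.const_add 1
  have hn1 : HasDerivAt (fun t : ℝ => 3 + (q.2 + t) ^ 2) (2 * (q.2 + t)) t := hsq.const_add 3
  have hn2 : HasDerivAt (fun t : ℝ => 2 * (q.2 + t)) 2 t :=
    (h0.const_mul 2).congr_deriv (by ring)
  have hne := (pos1 (q.2 + t)).ne'
  have h1 : HasDerivAt (fun t : ℝ => q.1 * ((3 + (q.2 + t) ^ 2) / (1 + (q.2 + t) ^ 2)))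
      (q.1 * (-4 * (q.2 + t) / (1 + (q.2 + t) ^ 2) ^ 2)) t := by
    have h := (hn1.div hden hne).const_mul q.1
    exact h.congr_deriv (by ring)
  have h2 : HasDerivAt (fun t : ℝ => q.1 * (2 * (q.2 + t) / (1 + (q.2 + t) ^ 2)))
      (q.1 * (2 * (1 - (q.2 + t) ^ 2) / (1 + (q.2 + t) ^ 2) ^ 2)) t := by
    have h := (hn2.div hden hne).const_mul q.1
    exact h.congr_deriv (by ring)
  exact h1.prodMk (h2.prodMk (hasDerivAt_const t (q.1 ^ 2)))

end surface



section main

open Set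

theorem rel_phi {q : ℝ × ℝ} (hq : q ∈ domn) : Rel (phi q) := by
  have hv : 0 < q.1 := hq
  have h1 := pos1 q.2
  refine ⟨?_, ?_, ?_⟩
  · show 0 < q.1 * ((3 + q.2 ^ 2) / (1 + q.2 ^ 2))
    positivity
  · show 0 < q.1 ^ 2
    positivity
  · show ((q.1 * ((3 + q.2 ^ 2) / (1 + q.2 ^ 2))) ^ 2 + (q.1 * (2 * q.2 / (1 + q.2 ^ 2))) ^ 2
      + 3 * q.1 ^ 2) ^ 2 = 16 * (q.1 * ((3 + q.2 ^ 2) / (1 + q.2 ^ 2))) ^ 2 * q.1 ^ 2
    field_simp
    ring

/-- the surface -/
noncomputable def surf : AnalyticSurface where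
  dom := domn
  isOpen_dom := isOpen_domn
  isConnected_dom := isConnected_domn
  φ := phi
  analytic := fun q _ => analytic_phi q
  injOn := by
    intro a ha b hb hab
    rw [← psi_phi ha, ← psi_phi hb, hab]
  immersion := fun q hq => immersion_phi hq

theorem mem_carrier_rel {P : Space} (h : P ∈ surf.carrier) : Rel P := by
  obtain ⟨q, hq, rfl⟩ := h
  exact rel_phi hq

def lineSet (m κ : ℝ) : Set Space := {P | P.2.1 = m * P.1 ∧ P.2.2 = κ * P.1 ^ 2}

def circSet (v : ℝ) : Set Space := {P | (P.1 - 2 * v) ^ 2 + P.2.1 ^ 2 = v ^ 2 ∧ P.2.2 = v ^ 2}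

theorem classify {K : Set Space} (hK : IsIsotropicCircle K) (hinf : (K ∩ surf.carrier).Infinite) :
    (∃ m κ : ℝ, K = lineSet m κ) ∨ (∃ v : ℝ, 0 < v ∧ K = circSet v) := by
  rcases hK with ⟨a, b, r, α, β, γ, hr, rfl⟩ | ⟨x₀, y₀, u, w, A, B, C, huw, hA, rfl⟩
  · right
    set K : Set Space := {P | (P.1 - a) ^ 2 + (P.2.1 - b) ^ 2 = r ^ 2 ∧ P.2.2 = α * P.1 + β * P.2.1 + γ}
      with hKdef
    let τ : Space → ℝ := fun P => (P.2.1 - b) / (P.1 - a + r)
    have hpar : ∀ P ∈ K, P.1 ≠ a - r → P.1 * (1 + (τ P) ^ 2) = a * (1 + (τ P) ^ 2) + r * (1 - (τ P) ^ 2) ∧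
        P.2.1 * (1 + (τ P) ^ 2) = b * (1 + (τ P) ^ 2) + 2 * r * τ P := by
      intro P hP hne
      have h0 : P.1 - a + r ≠ 0 := by
        intro h; apply hne; linarith
      have h1 : (P.1 - a) ^ 2 + (P.2.1 - b) ^ 2 = r ^ 2 := hP.1
      have h2 : τ P * (P.1 - a + r) = P.2.1 - b := by
        simp only [τ]; field_simp
      have h3 : (1 + (τ P) ^ 2) * (P.1 - a + r) = 2 * r := by
        have h4 : (1 + (τ P) ^ 2) * (P.1 - a + r) * (P.1 - a + r) = 2 * r * (P.1 - a + r) := by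
          have : (1 + (τ P) ^ 2) * (P.1 - a + r) * (P.1 - a + r)
            = (P.1 - a + r) ^ 2 + (τ P * (P.1 - a + r)) ^ 2 := by ring
          rw [this, h2]
          linear_combination h1
        exact mul_right_cancel₀ h0 h4
      constructor
      · linear_combination h3
      · linear_combination -(1 + (τ P) ^ 2) * h2 + (τ P) * h3
    have hfin : (K ∩ {P : Space | P.1 = a - r}).Finite := by
      refine (Set.finite_singleton ((a - r, b, α * (a - r) + β * b + γ) : Space)).subset ?_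
      rintro P ⟨hP, hP1⟩
      have hP1' : P.1 = a - r := hP1
      have h1 : (P.1 - a) ^ 2 + (P.2.1 - b) ^ 2 = r ^ 2 := hP.1
      have h2 : P.2.1 = b := by
        rw [hP1'] at h1
        have : (P.2.1 - b) ^ 2 = 0 := by linear_combination h1
        have := pow_eq_zero_iff (two_ne_zero) |>.mp this
        linarith
      have h3 := hP.2
      rw [hP1', h2] at h3
      simp only [mem_singleton_iff]
      ext
      · exact hP1'
      · exact h2
      · exact h3
    have hinf2 : ((K ∩ surf.carrier) \ (K ∩ {P : Space | P.1 = a - r})).Infinite := hinf.sdiff hfin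
    have hinj : InjOn τ ((K ∩ surf.carrier) \ (K ∩ {P : Space | P.1 = a - r})) := by
      rintro P ⟨⟨hP, hPc⟩, hPn⟩ Q ⟨⟨hQ, hQc⟩, hQn⟩ hPQ
      have hP' : P.1 ≠ a - r := fun h => hPn ⟨hP, h⟩
      have hQ' : Q.1 ≠ a - r := fun h => hQn ⟨hQ, h⟩
      obtain ⟨p1, p2⟩ := hpar P hP hP'
      obtain ⟨q1, q2⟩ := hpar Q hQ hQ'
      rw [hPQ] at p1 p2
      have hpos : (1 + (τ Q) ^ 2) ≠ 0 := (pos1 _).ne'
      have e1 : P.1 = Q.1 := mul_right_cancel₀ hpos (p1.trans q1.symm)
      have e2 : P.2.1 = Q.2.1 := mul_right_cancel₀ hpos (p2.trans q2.symm)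
      ext
      · exact e1
      · exact e2
      · rw [hP.2, hQ.2, e1, e2]
    have hT := hinf2.image hinj
    have hcl := classify_ellipse (a := a) (b := b) (r := r) (α := α) (β := β) (γ := γ) hr hT (by
      rintro t ⟨P, ⟨⟨hP, hPc⟩, hPn⟩, rfl⟩
      have hP' : P.1 ≠ a - r := fun h => hPn ⟨hP, h⟩
      obtain ⟨p1, p2⟩ := hpar P hP hP'
      exact ⟨P.1, P.2.1, P.2.2, mem_carrier_rel hPc, p1, p2, hP.2⟩)
    obtain ⟨rfl, rfl, hγ, ha, rfl, hrv⟩ := hcl
    refine ⟨Real.sqrt γ, Real.sqrt_pos.mpr hγ, ?_⟩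
    rw [hKdef]
    ext P
    simp only [circSet, mem_ofPred_eq, ha, hrv, Real.sq_sqrt hγ.le]
    constructor
    · rintro ⟨h1, h2⟩
      exact ⟨by simpa using h1, by rw [h2]; ring⟩
    · rintro ⟨h1, h2⟩
      exact ⟨by simpa using h1, by rw [h2]; ring⟩
  · left
    have hT : {t : ℝ | ((x₀ + t * u, y₀ + t * w, A * t ^ 2 + B * t + C) : Space) ∈ surf.carrier}.Infinite := by
      intro hfin
      apply hinf
      refine (hfin.image (fun t : ℝ => ((x₀ + t * u, y₀ + t * w, A * t ^ 2 + B * t + C) : Space))).subset ?_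
      rintro P ⟨⟨t, rfl⟩, hP⟩
      exact ⟨t, hP, rfl⟩
    exact classify_parabola huw hA hT (fun t ht => mem_carrier_rel ht)

theorem deriv_zero_of_eventually {g : ℝ → ℝ} {g' c : ℝ} (hg : HasDerivAt g g' 0)
    (h : ∀ t ∈ Ioo (-1 : ℝ) 1, g t = c) : g' = 0 := by
  have he : g =ᶠ[nhds 0] fun _ => c := by
    filter_upwards [Ioo_mem_nhds (by norm_num : (-1 : ℝ) < 0) one_pos] with t ht
    exact h t ht
  exact (hg.congr_of_eventuallyEq he.symm).unique (hasDerivAt_const 0 c)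

theorem hasDerivAt_comps {c : ℝ → Space} {c' : Space} (hc : HasDerivAt c c' 0) :
    HasDerivAt (fun t => (c t).1) c'.1 0 ∧ HasDerivAt (fun t => (c t).2.1) c'.2.1 0 ∧
      HasDerivAt (fun t => (c t).2.2) c'.2.2 0 := by
  refine ⟨?_, ?_, ?_⟩
  · exact (hasFDerivAt_fst (𝕜 := ℝ) (p := c 0)).comp_hasDerivAt 0 hc
  · have h2 : HasDerivAt (fun t => (c t).2) c'.2 0 :=
      (hasFDerivAt_snd (𝕜 := ℝ) (p := c 0)).comp_hasDerivAt 0 hc
    exact (hasFDerivAt_fst (𝕜 := ℝ) (p := (c 0).2)).comp_hasDerivAt 0 h2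
  · have h2 : HasDerivAt (fun t => (c t).2) c'.2 0 :=
      (hasFDerivAt_snd (𝕜 := ℝ) (p := c 0)).comp_hasDerivAt 0 hc
    exact (hasFDerivAt_snd (𝕜 := ℝ) (p := (c 0).2)).comp_hasDerivAt 0 h2

theorem line_deriv {c : ℝ → Space} {c' : Space} (hc : HasDerivAt c c' 0) {m κ : ℝ}
    (h : ∀ t ∈ Ioo (-1 : ℝ) 1, c t ∈ lineSet m κ) :
    c'.2.1 = m * c'.1 ∧ c'.2.2 = 2 * κ * (c 0).1 * c'.1 := by
  obtain ⟨h1, h2, h3⟩ := hasDerivAt_comps hc
  constructor
  · have h4 : HasDerivAt (fun t => (c t).2.1 - m * (c t).1) (c'.2.1 - m * c'.1) 0 :=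
      h2.sub (h1.const_mul m)
    have := deriv_zero_of_eventually (c := 0) h4 (fun t ht => by
      have := (h t ht).1
      show (c t).2.1 - m * (c t).1 = 0
      rw [this]; ring)
    linarith
  · have h5 : HasDerivAt (fun t => κ * (c t).1 ^ 2) (κ * (2 * (c 0).1 * c'.1)) 0 := by
      have := (h1.pow 2).const_mul κ
      exact this.congr_deriv (by push_cast; ring)
    have h4 : HasDerivAt (fun t => (c t).2.2 - κ * (c t).1 ^ 2)
        (c'.2.2 - κ * (2 * (c 0).1 * c'.1)) 0 := h3.sub h5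
    have := deriv_zero_of_eventually (c := 0) h4 (fun t ht => by
      have := (h t ht).2
      show (c t).2.2 - κ * (c t).1 ^ 2 = 0
      rw [this]; ring)
    linarith

theorem circ_deriv {c : ℝ → Space} {c' : Space} (hc : HasDerivAt c c' 0) {v : ℝ}
    (h : ∀ t ∈ Ioo (-1 : ℝ) 1, c t ∈ circSet v) :
    ((c 0).1 - 2 * v) * c'.1 + (c 0).2.1 * c'.2.1 = 0 ∧ c'.2.2 = 0 := by
  obtain ⟨h1, h2, h3⟩ := hasDerivAt_comps hc
  constructor
  · have h4 : HasDerivAt (fun t => ((c t).1 - 2 * v) ^ 2 + (c t).2.1 ^ 2)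
        (2 * ((c 0).1 - 2 * v) * c'.1 + 2 * (c 0).2.1 * c'.2.1) 0 := by
      have := ((h1.sub_const (2 * v)).pow 2).add (h2.pow 2)
      exact this.congr_deriv (by push_cast; ring)
    have := deriv_zero_of_eventually (c := v ^ 2) h4 (fun t ht => (h t ht).1)
    linarith
  · exact deriv_zero_of_eventually (c := v ^ 2) h3 (fun t ht => (h t ht).2)

theorem arc_data {α : ℝ × ℝ → ℝ → Space} (hα : IsArcFamily surf α) {q : ℝ × ℝ} (hq : q ∈ domn) :
    HasDerivAt (α q) (deriv (α q) 0) 0 ∧ α q 0 = phi q ∧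
    ∃ K, (∀ t ∈ Ioo (-1 : ℝ) 1, α q t ∈ K) ∧ IsIsotropicCircle K ∧
      ((∃ m κ : ℝ, K = lineSet m κ) ∨ (∃ v : ℝ, 0 < v ∧ K = circSet v)) := by
  refine ⟨?_, hα.start q hq, ?_⟩
  · have h1 : AnalyticAt ℝ (fun p : (ℝ × ℝ) × ℝ => α p.1 p.2) (q, 0) :=
      hα.analytic (q, 0) ⟨hq, by norm_num, by norm_num⟩
    have h2 : AnalyticAt ℝ (fun t : ℝ => ((q, t) : (ℝ × ℝ) × ℝ)) 0 :=
      analyticAt_const.prod analyticAt_id
    have h3 : AnalyticAt ℝ (fun t : ℝ => α q t) 0 := h1.comp h2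
    exact h3.differentiableAt.hasDerivAt
  · obtain ⟨K, hK, harc⟩ := hα.circle q hq
    refine ⟨K, harc, hK, classify hK ?_⟩
    have h1 : (Ioo (-1 : ℝ) 1).Infinite := Ioo_infinite (by norm_num)
    refine (h1.image (hα.injOn q hq)).mono ?_
    rintro P ⟨t, ht, rfl⟩
    exact ⟨harc t ht, hα.mem q hq t ht⟩

/-- for each point, one arc is radial and the other one is on a circle -/
theorem both_types {α β : ℝ × ℝ → ℝ → Space} (h : HypH surf α β) {q : ℝ × ℝ} (hq : q ∈ domn) :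
    (∃ m κ, ((∀ t ∈ Ioo (-1 : ℝ) 1, α q t ∈ lineSet m κ) ∨ (∀ t ∈ Ioo (-1 : ℝ) 1, β q t ∈ lineSet m κ)) ∧
      IsIsotropicCircle (lineSet m κ) ∧ phi q ∈ lineSet m κ) ∧
    (((∀ t ∈ Ioo (-1 : ℝ) 1, α q t ∈ circSet q.1) ∨ (∀ t ∈ Ioo (-1 : ℝ) 1, β q t ∈ circSet q.1)) ∧
      IsIsotropicCircle (circSet q.1)) := by
  obtain ⟨hα, hβ, hrest⟩ := h
  obtain ⟨hli, -⟩ := hrest q hq
  rw [LinearIndependent.pair_iff] at hli
  obtain ⟨da, ea, K, hKa, hKi, hK⟩ := arc_data hα hq
  obtain ⟨db, eb, L, hLb, hLi, hL⟩ := arc_data hβ hq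
  set a' := deriv (α q) 0 with ha'
  set b' := deriv (β q) 0 with hb'
  have h0 : (0 : ℝ) ∈ Ioo (-1 : ℝ) 1 := ⟨by norm_num, by norm_num⟩
  have hv : 0 < q.1 := hq
  have hx : 0 < (phi q).1 := (rel_phi hq).1
  have hvv : ∀ v : ℝ, 0 < v → phi q ∈ circSet v → v = q.1 := by
    intro v hv0 hmem
    have h1 : q.1 ^ 2 = v ^ 2 := hmem.2
    exact ((pow_left_inj₀ hv.le hv0.le two_ne_zero).mp h1).symm
  rcases hK with ⟨m, κ, rfl⟩ | ⟨v, hv0, rfl⟩ <;> rcases hL with ⟨m', κ', rfl⟩ | ⟨v', hv0', rfl⟩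
  · exfalso
    have ma : phi q ∈ lineSet m κ := by rw [← ea]; exact hKa 0 h0
    have mb : phi q ∈ lineSet m' κ' := by rw [← eb]; exact hLb 0 h0
    have hm : m = m' := by
      have := ma.1.symm.trans mb.1
      exact mul_right_cancel₀ hx.ne' this
    have hκ : κ = κ' := by
      have := ma.2.symm.trans mb.2
      exact mul_right_cancel₀ (pow_ne_zero 2 hx.ne') this
    subst hm hκ
    obtain ⟨a1, a2⟩ := line_deriv da hKa
    obtain ⟨b1, b2⟩ := line_deriv db hLb
    rw [ea] at a2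
    rw [eb] at b2
    have h1 := hli b'.1 (-a'.1) (by
      ext
      · simp; ring
      · simp [a1, b1]; ring
      · simp [a2, b2]; ring)
    have ha0 : a' = 0 := by
      have : a'.1 = 0 := by linarith [h1.2]
      ext
      · exact this
      · rw [a1, this]; simp
      · rw [a2, this]; simp
    have h2 := hli 1 0 (by rw [ha0]; simp)
    exact one_ne_zero h2.1
  · have mb : phi q ∈ circSet v' := by rw [← eb]; exact hLb 0 h0
    have := hvv v' hv0' mb
    subst this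
    refine ⟨⟨m, κ, Or.inl hKa, hKi, by rw [← ea]; exact hKa 0 h0⟩, Or.inr hLb, hLi⟩
  · have ma : phi q ∈ circSet v := by rw [← ea]; exact hKa 0 h0
    have := hvv v hv0 ma
    subst this
    refine ⟨⟨m', κ', Or.inr hLb, hLi, by rw [← eb]; exact hLb 0 h0⟩, Or.inl hKa, hKi⟩
  · exfalso
    have ma : phi q ∈ circSet v := by rw [← ea]; exact hKa 0 h0
    have mb : phi q ∈ circSet v' := by rw [← eb]; exact hLb 0 h0
    have e1 := hvv v hv0 ma
    have e2 := hvv v' hv0' mb
    subst e1 e2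
    obtain ⟨a1, a2⟩ := circ_deriv da hKa
    obtain ⟨b1, b2⟩ := circ_deriv db hLb
    rw [ea] at a1
    rw [eb] at b1
    have hc : ((phi q).1 - 2 * q.1) ^ 2 + (phi q).2.1 ^ 2 = q.1 ^ 2 := ma.1
    set X := (phi q).1 - 2 * q.1 with hX
    set Y := (phi q).2.1 with hY
    have hdet : a'.1 * b'.2.1 - a'.2.1 * b'.1 = 0 := by
      have h1 : X * (a'.1 * b'.2.1 - a'.2.1 * b'.1) = 0 := by
        linear_combination b'.2.1 * a1 - a'.2.1 * b1
      have h2 : Y * (a'.1 * b'.2.1 - a'.2.1 * b'.1) = 0 := by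
        linear_combination a'.1 * b1 - b'.1 * a1
      by_contra hne
      have hX0 : X = 0 := by
        rcases mul_eq_zero.mp h1 with h | h
        · exact h
        · exact absurd h hne
      have hY0 : Y = 0 := by
        rcases mul_eq_zero.mp h2 with h | h
        · exact h
        · exact absurd h hne
      rw [hX0, hY0] at hc
      have : (0 : ℝ) < q.1 ^ 2 := by positivity
      rw [← hc] at this
      norm_num at this
    have h1 := hli b'.1 (-a'.1) (by
      ext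
      · simp; ring
      · simp; linear_combination -hdet
      · simp [a2, b2])
    have h2 := hli b'.2.1 (-a'.2.1) (by
      ext
      · simp; linear_combination hdet
      · simp; ring
      · simp [a2, b2])
    have ha0 : a' = 0 := by
      ext
      · have := h1.2; simp at this; exact this
      · have := h2.2; simp at this; exact this
      · exact a2
    have h3 := hli 1 0 (by rw [ha0]; simp)
    exact one_ne_zero h3.1

end main


section final

open Set

theorem isoCircle_line {v : ℝ} (hv : 0 < v) (u : ℝ) :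
    ∃ K, IsIsotropicCircle K ∧ ∀ t ∈ Ioo (-1 : ℝ) 1, arc1 (v, u) t ∈ K := by
  refine ⟨_, Or.inr ⟨0, 0, (3 + u ^ 2) / (1 + u ^ 2), 2 * u / (1 + u ^ 2), 1, 0, 0, ?_, one_ne_zero, rfl⟩, ?_⟩
  · intro h
    have h1 : (3 + u ^ 2) / (1 + u ^ 2) = 0 := congrArg Prod.fst h
    have h2 : 0 < (3 + u ^ 2) / (1 + u ^ 2) := by positivity
    exact h2.ne' h1
  · intro t _
    refine ⟨v * (1 + t / 2), ?_⟩
    ext
    · simp [arc1, phi]
    · simp [arc1, phi]
    · simp [arc1, phi]

theorem isoCircle_circ {v : ℝ} (hv : 0 < v) (u : ℝ) :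
    ∃ K, IsIsotropicCircle K ∧ ∀ t ∈ Ioo (-1 : ℝ) 1, arc2 (v, u) t ∈ K := by
  refine ⟨_, Or.inl ⟨2 * v, 0, v, 0, 0, v ^ 2, hv, rfl⟩, ?_⟩
  intro t _
  have h1 := pos1 (u + t)
  constructor
  · show (v * ((3 + (u + t) ^ 2) / (1 + (u + t) ^ 2)) - 2 * v) ^ 2
      + (v * (2 * (u + t) / (1 + (u + t) ^ 2)) - 0) ^ 2 = v ^ 2
    field_simp
    ring
  · show v ^ 2 = 0 * _ + 0 * _ + v ^ 2
    ring

theorem fam1 : IsArcFamily surf arc1 where
  analytic := fun p _ => analytic_arc1 p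
  start := by
    intro q _
    simp [arc1, surf]
  injOn := by
    intro q hq s hs t ht hst
    have hv : 0 < q.1 := hq
    have h1 : (q.1 * (1 + s / 2)) ^ 2 = (q.1 * (1 + t / 2)) ^ 2 := congrArg (fun P : Space => P.2.2) hst
    have hs1 : 0 < 1 + s / 2 := by have := hs.1; linarith
    have ht1 : 0 < 1 + t / 2 := by have := ht.1; linarith
    have h2 := (pow_left_inj₀ (mul_pos hv hs1).le (mul_pos hv ht1).le two_ne_zero).mp h1
    have h3 := mul_left_cancel₀ hv.ne' h2
    linarith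
  regular := by
    intro q hq t _ h
    have hv : 0 < q.1 := hq
    rw [(deriv_arc1 q t).deriv] at h
    have h1 : q.1 / 2 * ((3 + q.2 ^ 2) / (1 + q.2 ^ 2)) = 0 := congrArg Prod.fst h
    have h2 : 0 < q.1 / 2 * ((3 + q.2 ^ 2) / (1 + q.2 ^ 2)) := by positivity
    exact h2.ne' h1
  mem := by
    intro q hq t ht
    have hv : 0 < q.1 := hq
    have hs1 : 0 < 1 + t / 2 := by have := ht.1; linarith
    exact ⟨(q.1 * (1 + t / 2), q.2), mul_pos hv hs1, rfl⟩
  circle := fun q hq => isoCircle_line hq q.2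

theorem fam2 : IsArcFamily surf arc2 where
  analytic := fun p _ => analytic_arc2 p
  start := by
    intro q _
    simp [arc2, surf]
  injOn := by
    intro q hq s hs t ht hst
    have hs' : ((q.1, q.2 + s) : ℝ × ℝ) ∈ domn := hq
    have ht' : ((q.1, q.2 + t) : ℝ × ℝ) ∈ domn := hq
    have h1 : ((q.1, q.2 + s) : ℝ × ℝ) = (q.1, q.2 + t) := surf.injOn hs' ht' hst
    have h2 : q.2 + s = q.2 + t := congrArg Prod.snd h1
    linarith
  regular := by
    intro q hq t _ h
    have hv : 0 < q.1 := hq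
    rw [(deriv_arc2 q t).deriv] at h
    have h1 : q.1 * (-4 * (q.2 + t) / (1 + (q.2 + t) ^ 2) ^ 2) = 0 := congrArg Prod.fst h
    have h2 : q.1 * (2 * (1 - (q.2 + t) ^ 2) / (1 + (q.2 + t) ^ 2) ^ 2) = 0 :=
      congrArg (fun P : Space => P.2.1) h
    have hp := pos1 (q.2 + t)
    have h3 : q.2 + t = 0 := by
      rcases mul_eq_zero.mp h1 with h | h
      · exact absurd h hv.ne'
      · rw [div_eq_zero_iff] at h
        rcases h with h | h
        · linarith
        · exact absurd h (pow_ne_zero 2 hp.ne')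
    rw [h3] at h2
    norm_num at h2
    exact hv.ne' h2
  mem := by
    intro q hq t ht
    exact ⟨(q.1, q.2 + t), hq, rfl⟩
  circle := fun q hq => isoCircle_circ hq q.2

theorem hypH_surf : HypH surf arc1 arc2 := by
  refine ⟨fam1, fam2, ?_⟩
  intro q hq
  have hv : 0 < q.1 := hq
  constructor
  · rw [LinearIndependent.pair_iff, (deriv_arc1 q 0).deriv, (deriv_arc2 q 0).deriv]
    intro s t hst
    have h3 : s * (q.1 ^ 2 * (1 + 0 / 2)) + t * 0 = 0 := congrArg (fun P : Space => P.2.2) hst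
    have hs : s = 0 := by
      have h4 : s * q.1 ^ 2 = 0 := by linear_combination h3
      rcases mul_eq_zero.mp h4 with h | h
      · exact h
      · exact absurd h (pow_ne_zero 2 hv.ne')
    refine ⟨hs, ?_⟩
    by_contra ht
    have hne := fam2.regular q hq 0 ⟨by norm_num, by norm_num⟩
    rw [(deriv_arc2 q 0).deriv] at hne
    rw [hs, zero_smul, zero_add] at hst
    exact hne ((smul_eq_zero.mp hst).resolve_left ht)
  · rintro ⟨K, hK, h1, h2⟩
    have a0 := h1 0 ⟨by norm_num, by norm_num⟩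
    have a1 := h1 (1 / 2) ⟨by norm_num, by norm_num⟩
    have a2 := h1 (-1 / 2) ⟨by norm_num, by norm_num⟩
    have b0 := h2 0 ⟨by norm_num, by norm_num⟩
    have b1 := h2 (1 / 2) ⟨by norm_num, by norm_num⟩
    have b2 := h2 (-1 / 2) ⟨by norm_num, by norm_num⟩
    obtain ⟨v, u⟩ := q
    simp only at hv
    simp only [arc1, arc2, phi] at a0 a1 a2 b0 b1 b2
    have hu := pos1 u
    set X := (3 + u ^ 2) / (1 + u ^ 2) with hX
    set Y := 2 * u / (1 + u ^ 2) with hY
    have hXpos : 0 < X := by rw [hX]; positivity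
    have hb : ∀ s : ℝ, ((3 + s ^ 2) / (1 + s ^ 2)) * (1 + s ^ 2) = 3 + s ^ 2 ∧
        (2 * s / (1 + s ^ 2)) * (1 + s ^ 2) = 2 * s := by
      intro s
      have := (pos1 s).ne'
      constructor <;> field_simp
    have hv2 : v ^ 2 ≠ 0 := pow_ne_zero 2 hv.ne'
    rcases hK with (⟨α, β, γ, δ, hα, rfl⟩ | ⟨a, b, r, hr, rfl⟩) | ⟨a, b, c, d, habc, rfl⟩
    · simp only [mem_ofPred_eq] at a0 a1 a2 b0 b1 b2
      have e2 : v ^ 2 = α * v ^ 2 * (X ^ 2 + Y ^ 2) := by
        linear_combination 8 * (a1 - 2 * a0 + a2)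
      have hαpos : 0 < α := by
        by_contra hneg
        push Not at hneg
        have h3 : 0 < v ^ 2 := by positivity
        have h4 : 0 ≤ v ^ 2 * (X ^ 2 + Y ^ 2) := by positivity
        nlinarith
      -- on the circle
      have key : ∀ s : ℝ, v ^ 2 = α * ((v * ((3 + s ^ 2) / (1 + s ^ 2))) ^ 2
          + (v * (2 * s / (1 + s ^ 2))) ^ 2) + β * (v * ((3 + s ^ 2) / (1 + s ^ 2)))
          + γ * (v * (2 * s / (1 + s ^ 2))) + δ →
          v ^ 2 * (1 + s ^ 2) = α * v ^ 2 * (9 + s ^ 2) + β * v * (3 + s ^ 2) + 2 * γ * v * s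
            + δ * (1 + s ^ 2) := by
        intro s hs
        have hp := pos1 s
        have h4 : ((3 + s ^ 2) / (1 + s ^ 2)) ^ 2 + (2 * s / (1 + s ^ 2)) ^ 2 = (9 + s ^ 2) / (1 + s ^ 2) := by
          field_simp; ring
        have h5 : (9 + s ^ 2) / (1 + s ^ 2) * (1 + s ^ 2) = 9 + s ^ 2 := by field_simp
        obtain ⟨h6, h7⟩ := hb s
        linear_combination (1 + s ^ 2) * hs + α * v ^ 2 * (1 + s ^ 2) * h4 + α * v ^ 2 * h5
          + β * v * h6 + γ * v * h7
      have c0 := key _ b0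
      have c1 := key _ b1
      have c2 := key _ b2
      have d0 : δ = 0 := by
        have e0 := a0
        have e1 : β * (v * X) + γ * (v * Y) = 0 := by
          linear_combination (-2) * (a1 - a2) + e2 * 2
        linear_combination -e0 + e2 - e1
      have q2 : v ^ 2 = α * v ^ 2 + β * v + δ := by
        linear_combination 2 * (c1 - 2 * c0 + c2)
      have q1 : γ * v = 0 := by
        linear_combination (-1 / 2 : ℝ) * (c1 - c2) + u * q2
      have q0 : v ^ 2 = 9 * α * v ^ 2 + 3 * β * v + δ := by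
        linear_combination c0 - u ^ 2 * q2 + 2 * u * q1
      have : v ^ 2 * (3 * α + 1) = 0 := by
        rw [d0] at q2 q0
        linear_combination (-1 / 2 : ℝ) * (q0 - 3 * q2)
      rcases mul_eq_zero.mp this with h | h
      · exact hv2 h
      · linarith
    · simp only [mem_ofPred_eq] at a0 a1 a2
      have e2 : v ^ 2 * (X ^ 2 + Y ^ 2) = 0 := by
        linear_combination 8 * (a1 - 2 * a0 + a2)
      have : 0 < v ^ 2 * (X ^ 2 + Y ^ 2) := by positivity
      exact this.ne' e2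
    · simp only [mem_ofPred_eq] at a0 a1 a2 b0 b1 b2
      have e2 : c * v ^ 2 = 0 := by
        linear_combination 8 * (a1 - 2 * a0 + a2)
      have hc : c = 0 := by
        rcases mul_eq_zero.mp e2 with h | h
        · exact h
        · exact absurd h hv2
      subst hc
      have e1 : a * (v * X) + b * (v * Y) = 0 := by
        linear_combination 4 * (a1 - a0)
      have hd : d = 0 := by linear_combination -a0 + e1
      have key : ∀ s : ℝ, a * (v * ((3 + s ^ 2) / (1 + s ^ 2))) + b * (v * (2 * s / (1 + s ^ 2))) + 0 * v ^ 2 = d →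
          v * (a * (3 + s ^ 2) + 2 * b * s) = 0 := by
        intro s hs
        obtain ⟨h6, h7⟩ := hb s
        rw [hd] at hs
        linear_combination (1 + s ^ 2) * hs - a * v * h6 - b * v * h7
      have c0 := key _ b0
      have c1 := key _ b1
      have c2 := key _ b2
      have ha : v * a = 0 := by linear_combination 2 * (c1 - 2 * c0 + c2)
      have ha' : a = 0 := (mul_eq_zero.mp ha).resolve_left hv.ne'
      have hbb : v * b = 0 := by
        rw [ha'] at c1 c2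
        linear_combination (1 / 2 : ℝ) * (c1 - c2)
      have hb' : b = 0 := (mul_eq_zero.mp hbb).resolve_left hv.ne'
      exact habc (by rw [ha', hb'])

/-! ### alternative (b) -/

def InPencil (F₁ F₂ : Fin 4 → ℝ) (v : ℝ) : Prop :=
  ∃ c d : ℝ, topView (circSet v) = realZeros (c • F₁ + d • F₂)

theorem topView_circ (v : ℝ) : topView (circSet v) = {p | (p.1 - 2 * v) ^ 2 + p.2 ^ 2 = v ^ 2} := by
  ext p
  constructor
  · rintro ⟨P, hP, rfl⟩
    exact hP.1
  · intro hp
    exact ⟨(p.1, p.2, v ^ 2), ⟨hp, rfl⟩, rfl⟩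

theorem topView_line (m κ : ℝ) : topView (lineSet m κ) = {p | p.2 = m * p.1} := by
  ext p
  constructor
  · rintro ⟨P, hP, rfl⟩
    exact hP.1
  · intro hp
    exact ⟨(p.1, p.2, κ * p.1 ^ 2), ⟨hp, rfl⟩, rfl⟩

theorem circ_coeffs {v : ℝ} (hv : 0 < v) {l : Fin 4 → ℝ} (h : topView (circSet v) = realZeros l) :
    l 1 = -4 * v * l 0 ∧ l 2 = 0 ∧ l 3 = 3 * v ^ 2 * l 0 ∧ l 0 ≠ 0 := by
  rw [topView_circ] at h
  have hm : ∀ x y : ℝ, (x - 2 * v) ^ 2 + y ^ 2 = v ^ 2 → l 0 * (x ^ 2 + y ^ 2) + l 1 * x + l 2 * y + l 3 = 0 := by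
    intro x y hxy
    have : ((x, y) : ℝ × ℝ) ∈ realZeros l := by rw [← h]; exact hxy
    exact this
  have h1 := hm (3 * v) 0 (by ring)
  have h2 := hm v 0 (by ring)
  have h3 := hm (2 * v) v (by ring)
  have h4 := hm (2 * v) (-v) (by ring)
  have hl2 : l 2 = 0 := by
    have : 2 * v * l 2 = 0 := by linear_combination h3 - h4
    rcases mul_eq_zero.mp this with h | h
    · exfalso; linarith
    · exact h
  have hl1 : l 1 = -4 * v * l 0 := by
    have : 2 * v * (l 1 + 4 * v * l 0) = 0 := by linear_combination h1 - h2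
    rcases mul_eq_zero.mp this with h | h
    · exfalso; linarith
    · linarith
  have hl3 : l 3 = 3 * v ^ 2 * l 0 := by
    rw [hl1] at h2
    linear_combination h2
  refine ⟨hl1, hl2, hl3, ?_⟩
  intro h0
  have : ((0, 0) : ℝ × ℝ) ∈ realZeros l := by
    show l 0 * ((0:ℝ) ^ 2 + (0:ℝ) ^ 2) + l 1 * 0 + l 2 * 0 + l 3 = 0
    rw [hl3, h0]; ring
  rw [← h] at this
  have h5 : ((0:ℝ) - 2 * v) ^ 2 + (0:ℝ) ^ 2 = v ^ 2 := this
  nlinarith [mul_pos hv hv]

theorem triple {F₁ F₂ : Fin 4 → ℝ} {a b c : ℝ} (ha : 0 < a) (hb : 0 < b) (hc : 0 < c)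
    (hab : a ≠ b) (hbc : b ≠ c) (hac : a ≠ c)
    (h1 : InPencil F₁ F₂ a) (h2 : InPencil F₁ F₂ b) (h3 : InPencil F₁ F₂ c) : False := by
  obtain ⟨p1, q1, e1⟩ := h1
  obtain ⟨p2, q2, e2⟩ := h2
  obtain ⟨p3, q3, e3⟩ := h3
  obtain ⟨a1, -, a3, a0⟩ := circ_coeffs ha e1
  obtain ⟨b1, -, b3, b0⟩ := circ_coeffs hb e2
  obtain ⟨c1, -, c3, c0⟩ := circ_coeffs hc e3
  simp only [Pi.add_apply, Pi.smul_apply, smul_eq_mul] at a1 a3 a0 b1 b3 b0 c1 c3 c0
  set A := p1 * F₁ 0 + q1 * F₂ 0 with hA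
  set B := p2 * F₁ 0 + q2 * F₂ 0 with hB
  set C := p3 * F₁ 0 + q3 * F₂ 0 with hC
  -- determinant of the 3x3 matrix of coordinates (0,1,3)
  have hdet : A * ((-4 * b * B) * (3 * c ^ 2 * C) - (3 * b ^ 2 * B) * (-4 * c * C))
      - (-4 * a * A) * (B * (3 * c ^ 2 * C) - (3 * b ^ 2 * B) * C)
      + (3 * a ^ 2 * A) * (B * (-4 * c * C) - (-4 * b * B) * C) = 0 := by
    rw [← a1, ← a3, ← b1, ← b3, ← c1, ← c3, hA, hB, hC]
    ring
  have h : 12 * (A * B * C) * ((a - b) * (b - c) * (a - c)) = 0 := by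
    linear_combination hdet
  have hne : 12 * (A * B * C) * ((a - b) * (b - c) * (a - c)) ≠ 0 := by
    have x1 : a - b ≠ 0 := sub_ne_zero.mpr hab
    have x2 : b - c ≠ 0 := sub_ne_zero.mpr hbc
    have x3 : a - c ≠ 0 := sub_ne_zero.mpr hac
    exact mul_ne_zero (mul_ne_zero (by norm_num) (mul_ne_zero (mul_ne_zero a0 b0) c0))
      (mul_ne_zero (mul_ne_zero x1 x2) x3)
  exact hne h

theorem not_altB {α β : ℝ × ℝ → ℝ → Space} (h : HypH surf α β) : ¬ AltB surf α β := by
  rintro ⟨F₁, F₂, G₁, G₂, -, -, hall⟩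
  have hv : ∀ v : ℝ, 0 < v → InPencil F₁ F₂ v ∨ InPencil G₁ G₂ v := by
    intro v hv
    obtain ⟨-, harc, hiso⟩ := both_types h (q := (v, 0)) hv
    rcases hall (v, 0) hv _ hiso harc with ⟨c, d, -, he⟩ | ⟨c, d, -, he⟩
    · exact Or.inl ⟨c, d, he⟩
    · exact Or.inr ⟨c, d, he⟩
  have h1 := hv 1 (by norm_num)
  have h2 := hv 2 (by norm_num)
  have h3 := hv 3 (by norm_num)
  have h4 := hv 4 (by norm_num)
  have h5 := hv 5 (by norm_num)
  have T : ∀ {F₁ F₂ : Fin 4 → ℝ} {a b c : ℝ}, 0 < a → a < b → b < c →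
      InPencil F₁ F₂ a → InPencil F₁ F₂ b → InPencil F₁ F₂ c → False := by
    intro F₁ F₂ a b c ha hab hbc x y z
    exact triple ha (ha.trans hab) ((ha.trans hab).trans hbc) hab.ne hbc.ne (hab.trans hbc).ne x y z
  rcases h1 with h1 | h1 <;> rcases h2 with h2 | h2 <;> rcases h3 with h3 | h3 <;>
    rcases h4 with h4 | h4 <;> rcases h5 with h5 | h5 <;>
    first
    | exact T (by norm_num) (by norm_num) (by norm_num) h1 h2 h3
    | exact T (by norm_num) (by norm_num) (by norm_num) h1 h2 h4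
    | exact T (by norm_num) (by norm_num) (by norm_num) h1 h2 h5
    | exact T (by norm_num) (by norm_num) (by norm_num) h1 h3 h4
    | exact T (by norm_num) (by norm_num) (by norm_num) h1 h3 h5
    | exact T (by norm_num) (by norm_num) (by norm_num) h1 h4 h5
    | exact T (by norm_num) (by norm_num) (by norm_num) h2 h3 h4
    | exact T (by norm_num) (by norm_num) (by norm_num) h2 h3 h5
    | exact T (by norm_num) (by norm_num) (by norm_num) h2 h4 h5
    | exact T (by norm_num) (by norm_num) (by norm_num) h3 h4 h5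

/-! ### alternative (a) -/

theorem line_coeffs {m κ : ℝ} {l : Fin 4 → ℝ} (h : topView (lineSet m κ) = realZeros l) :
    l 0 = 0 ∧ l 1 = - m * l 2 ∧ l 3 = 0 ∧ l 2 ≠ 0 := by
  rw [topView_line] at h
  have hm : ∀ x y : ℝ, y = m * x → l 0 * (x ^ 2 + y ^ 2) + l 1 * x + l 2 * y + l 3 = 0 := by
    intro x y hxy
    have : ((x, y) : ℝ × ℝ) ∈ realZeros l := by rw [← h]; exact hxy
    exact this
  have h1 := hm 0 0 (by ring)
  have h2 := hm 1 m (by ring)
  have h3 := hm (-1) (-m) (by ring)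
  have hl3 : l 3 = 0 := by linear_combination h1
  have hl0 : l 0 = 0 := by
    have : (1 + m ^ 2) * l 0 = 0 := by linear_combination (1 / 2 : ℝ) * (h2 + h3) - hl3
    exact (mul_eq_zero.mp this).resolve_left (by positivity)
  have hl1 : l 1 = - m * l 2 := by
    linear_combination (1 / 2 : ℝ) * (h2 - h3)
  refine ⟨hl0, hl1, hl3, ?_⟩
  intro h0
  have : ((0, 1) : ℝ × ℝ) ∈ realZeros l := by
    show l 0 * ((0:ℝ) ^ 2 + (1:ℝ) ^ 2) + l 1 * 0 + l 2 * 1 + l 3 = 0
    rw [hl3, h0, hl0]; ring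
  rw [← h] at this
  have h5 : (1:ℝ) = m * 0 := this
  norm_num at h5

theorem not_altA {α β : ℝ × ℝ → ℝ → Space} (h : HypH surf α β) : ¬ AltA surf α β := by
  rintro ⟨k, -, R, -, -, hall⟩
  -- exceptional slopes
  let S₁ : Set ℂ := {m : ℂ | ∃ x : ℂ, ((lineSub R).eval (Polynomial.C x)).eval m = 0 ∧
    ((Polynomial.derivative (lineSub R)).eval (Polynomial.C x)).eval m = 0 ∧
      (Polynomial.derivative ((lineSub R).eval (Polynomial.C x))).eval m ≠ 0}
  have hS₁ : S₁.Finite := sard (lineSub R)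
  let a₀ : ℂ := MvPolynomial.eval ![0, 0] (MvPolynomial.pderiv 0 R)
  let b₀ : ℂ := MvPolynomial.eval ![0, 0] (MvPolynomial.pderiv 1 R)
  let S : Set ℂ := S₁ ∪ {-a₀ / b₀}
  have hS : S.Finite := hS₁.union (Set.finite_singleton _)
  have hmem : ∀ u : ℝ, (((2 * u / (3 + u ^ 2) : ℝ)) : ℂ) ∈ S := by
    intro u
    obtain ⟨⟨m, κ, harc, hiso, hphi⟩, -⟩ := both_types h (q := (1, u)) (show (0:ℝ) < 1 from one_pos)
    have hm : m = 2 * u / (3 + u ^ 2) := by
      have h1 : (1:ℝ) * (2 * u / (1 + u ^ 2)) = m * (1 * ((3 + u ^ 2) / (1 + u ^ 2))) := hphi.1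
      have hp := pos1 u
      have hp3 : (0:ℝ) < 3 + u ^ 2 := by positivity
      field_simp at h1
      field_simp
      linarith
    rw [← hm]
    obtain ⟨l, hl, p, -, htan, -⟩ := hall (1, u) (show (0:ℝ) < 1 from one_pos) _ hiso harc
    obtain ⟨hl0, hl1, hl3, hl2⟩ := line_coeffs hl
    obtain ⟨t1, t2, t3, -, -, t6⟩ := htan
    have hl2' : (l 2 : ℂ) ≠ 0 := by exact_mod_cast hl2
    have e1 : MvPolynomial.eval p (complexEq l) = (l 2 : ℂ) * (p 1 - m * p 0) := by
      simp only [complexEq, hl0, hl1, hl3]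
      simp
      ring
    have e2 : MvPolynomial.eval p (MvPolynomial.pderiv 0 (complexEq l)) = -(m : ℂ) * l 2 := by
      simp only [complexEq, hl0, hl1, hl3]
      simp [MvPolynomial.pderiv_X, Derivation.leibniz]
    have e3 : MvPolynomial.eval p (MvPolynomial.pderiv 1 (complexEq l)) = (l 2 : ℂ) := by
      simp only [complexEq, hl0, hl1, hl3]
      simp [MvPolynomial.pderiv_X, Derivation.leibniz]
    rw [e1] at t1
    have hp1 : p 1 = m * p 0 := by
      rcases mul_eq_zero.mp t1 with h | h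
      · exact absurd h hl2'
      · exact sub_eq_zero.mp h
    have hp : p = ![p 0, m * p 0] := by
      ext i; fin_cases i
      · rfl
      · exact hp1
    rw [e2, e3] at t6
    have t6' : MvPolynomial.eval p (MvPolynomial.pderiv 0 R)
        + m * MvPolynomial.eval p (MvPolynomial.pderiv 1 R) = 0 := by
      have : (l 2 : ℂ) * (MvPolynomial.eval p (MvPolynomial.pderiv 0 R)
        + m * MvPolynomial.eval p (MvPolynomial.pderiv 1 R)) = 0 := by
        linear_combination -t6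
      exact (mul_eq_zero.mp this).resolve_left hl2'
    have hb : MvPolynomial.eval p (MvPolynomial.pderiv 1 R) ≠ 0 := by
      intro h0
      rcases t3 with h | h
      · apply h; rw [h0, mul_zero, add_zero] at t6'; exact t6'
      · exact h h0
    by_cases hx : p 0 = 0
    · right
      have hp0 : p = ![0, 0] := by rw [hp, hx, mul_zero]
      rw [hp0] at t6' hb
      show (m : ℂ) = -a₀ / b₀
      have hb' : b₀ ≠ 0 := hb
      rw [eq_div_iff hb']
      have : a₀ + m * b₀ = 0 := t6'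
      linear_combination this
    · left
      refine ⟨p 0, ?_, ?_, ?_⟩
      · rw [lineSub_eval, ← hp]; exact t2
      · rw [lineSub_deriv, ← hp]; exact t6'
      · rw [lineSub_deriv2, ← hp]; exact mul_ne_zero hx hb
  -- infinitely many slopes
  have hinj : InjOn (fun u : ℝ => (((2 * u / (3 + u ^ 2) : ℝ)) : ℂ)) (Ioo (0:ℝ) 1) := by
    intro u hu w hw huw
    have h1 : 2 * u / (3 + u ^ 2) = 2 * w / (3 + w ^ 2) := Complex.ofReal_injective huw
    have hp3 : (0:ℝ) < 3 + u ^ 2 := by positivity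
    have hq3 : (0:ℝ) < 3 + w ^ 2 := by positivity
    rw [div_eq_div_iff hp3.ne' hq3.ne'] at h1
    have h2 : (u - w) * (3 - u * w) = 0 := by linear_combination (1 / 2 : ℝ) * h1
    rcases mul_eq_zero.mp h2 with h | h
    · linarith
    · exfalso
      have : u * w < 1 := by
        have := mul_lt_mul'' hu.2 hw.2 hu.1.le hw.1.le
        linarith
      linarith
  have hinf := (Ioo_infinite (show (0:ℝ) < 1 from one_pos)).image hinj
  exact hinf (hS.subset (by
    rintro m ⟨u, -, rfl⟩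
    exact hmem u))

theorem lineSet_isotropic {m κ : ℝ} (hκ : κ ≠ 0) : IsIsotropicCircle (lineSet m κ) := by
  refine Or.inr ⟨0, 0, 1, m, κ, 0, 0, by simp, hκ, ?_⟩
  ext P
  constructor
  · rintro ⟨h1, h2⟩
    refine ⟨P.1, ?_⟩
    ext
    · simp
    · rw [h1]; simp; ring
    · rw [h2]; simp
  · rintro ⟨t, rfl⟩
    constructor
    · simp; ring
    · simp

theorem circSet_isotropic {v : ℝ} (hv : 0 < v) : IsIsotropicCircle (circSet v) := by
  refine Or.inl ⟨2 * v, 0, v, 0, 0, v ^ 2, hv, ?_⟩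
  ext P
  simp [circSet]

/-- exactly two isotropic circles through each point -/
theorem exactly_two {P : Space} (hP : P ∈ surf.carrier) :
    {K : Set Space | IsIsotropicCircle K ∧ P ∈ K ∧ (K ∩ surf.carrier).Infinite}.ncard = 2 := by
  obtain ⟨q, hq, rfl⟩ := hP
  have hv : 0 < q.1 := hq
  have hrel := rel_phi hq
  have hx : 0 < (phi q).1 := hrel.1
  have hz : 0 < (phi q).2.2 := hrel.2.1
  set m := (phi q).2.1 / (phi q).1 with hm
  set κ := (phi q).2.2 / (phi q).1 ^ 2 with hκ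
  have hκ0 : κ ≠ 0 := by rw [hκ]; positivity
  have hPl : phi q ∈ lineSet m κ := by
    constructor
    · rw [hm]; field_simp
    · rw [hκ]; field_simp
  have hPc : phi q ∈ circSet q.1 := by
    have h1 := pos1 q.2
    constructor
    · show (q.1 * ((3 + q.2 ^ 2) / (1 + q.2 ^ 2)) - 2 * q.1) ^ 2
        + (q.1 * (2 * q.2 / (1 + q.2 ^ 2))) ^ 2 = q.1 ^ 2
      field_simp
      ring
    · rfl
  have hset : {K : Set Space | IsIsotropicCircle K ∧ phi q ∈ K ∧ (K ∩ surf.carrier).Infinite} =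
      {lineSet m κ, circSet q.1} := by
    ext K
    constructor
    · rintro ⟨hK, hPK, hinf⟩
      rcases classify hK hinf with ⟨m', κ', rfl⟩ | ⟨v, hv0, rfl⟩
      · left
        have e1 : m' = m := by
          rw [hm, eq_div_iff hx.ne']; exact hPK.1.symm
        have e2 : κ' = κ := by
          rw [hκ, eq_div_iff (pow_ne_zero 2 hx.ne')]; exact hPK.2.symm
        rw [e1, e2]
      · right
        have h1 : q.1 ^ 2 = v ^ 2 := hPK.2
        have h2 := (pow_left_inj₀ hv.le hv0.le two_ne_zero).mp h1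
        show circSet v = circSet q.1
        rw [h2]
    · have hI : (Ioo (-1 : ℝ) 1).Infinite := Ioo_infinite (by norm_num)
      rintro (rfl | h)
      · refine ⟨lineSet_isotropic hκ0, hPl, ?_⟩
        refine (hI.image (fam1.injOn q hq)).mono ?_
        rintro Q ⟨t, ht, rfl⟩
        refine ⟨?_, fam1.mem q hq t ht⟩
        have hX : (phi q).1 = q.1 * ((3 + q.2 ^ 2) / (1 + q.2 ^ 2)) := rfl
        have hY : (phi q).2.1 = q.1 * (2 * q.2 / (1 + q.2 ^ 2)) := rfl
        have hZ : (phi q).2.2 = q.1 ^ 2 := rfl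
        have h1 := pos1 q.2
        have hden : (0 : ℝ) < 3 + q.2 ^ 2 := by positivity
        constructor
        · show q.1 * (1 + t / 2) * (2 * q.2 / (1 + q.2 ^ 2))
            = m * (q.1 * (1 + t / 2) * ((3 + q.2 ^ 2) / (1 + q.2 ^ 2)))
          rw [hm, hX, hY]
          field_simp
        · show (q.1 * (1 + t / 2)) ^ 2
            = κ * (q.1 * (1 + t / 2) * ((3 + q.2 ^ 2) / (1 + q.2 ^ 2))) ^ 2
          rw [hκ, hX, hZ]
          field_simp
      · have h : K = circSet q.1 := h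
        subst h
        refine ⟨circSet_isotropic hv, hPc, ?_⟩
        refine (hI.image (fam2.injOn q hq)).mono ?_
        rintro Q ⟨t, ht, rfl⟩
        refine ⟨?_, fam2.mem q hq t ht⟩
        have h1 := pos1 (q.2 + t)
        constructor
        · show (q.1 * ((3 + (q.2 + t) ^ 2) / (1 + (q.2 + t) ^ 2)) - 2 * q.1) ^ 2
            + (q.1 * (2 * (q.2 + t) / (1 + (q.2 + t) ^ 2))) ^ 2 = q.1 ^ 2
          field_simp
          ring
        · rfl
  have hne : lineSet m κ ≠ circSet q.1 := by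
    intro h
    have h0 : ((0, 0, 0) : Space) ∈ lineSet m κ := by constructor <;> simp
    rw [h] at h0
    have h1 : (0 : ℝ) = q.1 ^ 2 := h0.2
    have h2 : 0 < q.1 ^ 2 := by positivity
    linarith
  show {K : Set Space | IsIsotropicCircle K ∧ phi q ∈ K ∧ (K ∩ surf.carrier).Infinite}.ncard = 2
  rw [hset]
  exact Set.ncard_pair hne

/-- Main result: the surface `M`, the image of `{(v, u) : v > 0}` under
`(v, u) ↦ (v (3 + u²)/(1 + u²), 2uv/(1 + u²), v²)`, has exactly two isotropic circles through each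
of its points, satisfies (H), and whatever arc families as in (H) are chosen on it, neither
alternative (a) nor alternative (b) holds. -/
theorem result : ∃ M : AnalyticSurface,
    (M.dom = {q | 0 < q.1} ∧ ∀ q, M.φ q =
      (q.1 * ((3 + q.2 ^ 2) / (1 + q.2 ^ 2)), q.1 * (2 * q.2 / (1 + q.2 ^ 2)), q.1 ^ 2)) ∧
    (∀ P ∈ M.carrier,
      {K : Set Space | IsIsotropicCircle K ∧ P ∈ K ∧ (K ∩ M.carrier).Infinite}.ncard = 2) ∧
    (∃ α β, HypH M α β) ∧
    ∀ α β, HypH M α β → ¬ AltA M α β ∧ ¬ AltB M α β :=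
  ⟨surf, ⟨rfl, fun _ => rfl⟩, fun _ hP => exactly_two hP, ⟨arc1, arc2, hypH_surf⟩,
    fun _ _ h => ⟨not_altA h, not_altB h⟩⟩

end final

end Pool.Agent.Results.MP_c33e78_gt.TopViewCounterexample
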